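import Mathlib
import Pool.Agent.Helper617.RM.Recursion
import Pool.Agent.Helper617.RM.SeqCodes

/-!
`Δ⁰₁` relations and functions over models of `RCA₀`.
-/

namespace Pool.Agent.H645R2.R

open Pool.Agent.Helper617.RM

universe u

set_option linter.unusedSectionVars false
set_option linter.unusedVariables false

variable {N : L2Structure.{u}} [IsModelRCA0 N]

theorem lt1 (a : N.M) : a < a + 1 := lt_add_one_iff'.2 le_rfl

theorem le_of_lt1 {a b : N.M} (h : a < b + 1) : a ≤ b := lt_add_one_iff'.1 h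

theorem lt1_of_le {a b : N.M} (h : a ≤ b) : a < b + 1 := lt_add_one_iff'.2 h

theorem succ_le' {a b : N.M} (h : a < b) : a + 1 ≤ b := add_one_le_iff'.2 h

/-- `Δ⁰₁` relations -/
def D1 (R : Ctx N → Prop) : Prop := S1 R ∧ S1 (fun v => ¬ R v)

theorem D1.of {R : Ctx N → Prop} (h : D0 R) : D1 R := ⟨h.S1, h.not.S1⟩

theorem D1.congr {R S : Ctx N → Prop} (hR : D1 R) (h : ∀ v, R v ↔ S v) : D1 S :=
  ⟨hR.1.congr h, hR.2.congr fun v => not_congr (h v)⟩

theorem D1.not {R : Ctx N → Prop} (h : D1 R) : D1 (fun v => ¬ R v) :=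
  ⟨h.2, h.1.congr fun v => by simp⟩

theorem D1.and {R S : Ctx N → Prop} (h : D1 R) (h' : D1 S) : D1 (fun v => R v ∧ S v) :=
  ⟨S1.and h.1 h'.1, (S1.or h.2 h'.2).congr fun v => by tauto⟩

theorem D1.or {R S : Ctx N → Prop} (h : D1 R) (h' : D1 S) : D1 (fun v => R v ∨ S v) :=
  ⟨S1.or h.1 h'.1, (S1.and h.2 h'.2).congr fun v => by tauto⟩

theorem D1.imp {R S : Ctx N → Prop} (h : D1 R) (h' : D1 S) : D1 (fun v => R v → S v) :=
  (h.not.or h').congr fun v => by tauto

theorem D1.iff {R S : Ctx N → Prop} (h : D1 R) (h' : D1 S) : D1 (fun v => R v ↔ S v) :=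
  ((h.imp h').and (h'.imp h)).congr fun v => by tauto

theorem D1.const (p : Prop) : D1 (fun _ : Ctx N => p) := D1.of (D0.const p)

theorem D1.comp {R : Ctx N → Prop} (h : D1 R) {g : Ctx N → Ctx N} (hg : CM g) :
    D1 (fun v => R (g v)) := ⟨h.1.comp hg, h.2.comp hg⟩

theorem D1.tail {R : Ctx N → Prop} (h : D1 R) : D1 (fun v => R (Helper617.RM.tail v)) :=
  h.comp CM.tail

/-- `Δ⁰₁` functions of the context -/
def DG (g : Ctx N → N.M) : Prop := D1 (fun w => w 0 = g (tail w))

theorem DG.tail {g : Ctx N → N.M} (hg : DG g) : DG (fun v => g (Helper617.RM.tail v)) :=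
  D1.comp (R := fun w => w 0 = g (Helper617.RM.tail w)) hg
    (g := fun w => cons (w 0) (Helper617.RM.tail (Helper617.RM.tail w)))
    (CM.cons (Tm.var 0) CM.tail.tail')

theorem DG.tm {g : Ctx N → N.M} (hg : Tm g) : DG g := D1.of (D0.eq (Tm.var 0) hg.tail)

theorem D1.substF {P : Ctx N → N.M → Prop} (hP : D1 (fun w => P (Helper617.RM.tail w) (w 0)))
    {g : Ctx N → N.M} (hg : DG g) : D1 (fun v => P v (g v)) := by
  constructor
  · refine S1.congr (R := fun v => ∃ w, w = g v ∧ P v w) ?_ fun v => by simp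
    exact S1.ex (S1.and hg.1 hP.1)
  · refine S1.congr (R := fun v => ∃ w, w = g v ∧ ¬ P v w) ?_ fun v => by simp
    exact S1.ex (S1.and hg.1 hP.2)

theorem S1.substF {P : Ctx N → N.M → Prop} (hP : S1 (fun w => P (Helper617.RM.tail w) (w 0)))
    {g : Ctx N → N.M} (hg : DG g) : S1 (fun v => P v (g v)) := by
  refine S1.congr (R := fun v => ∃ w, w = g v ∧ P v w) ?_ fun v => by simp
  exact S1.ex (S1.and hg.1 hP)

theorem D1.app1 {R : N.M → Prop} (hR : D1 (fun v => R (v 0))) {g : Ctx N → N.M} (hg : DG g) :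
    D1 (fun v => R (g v)) := D1.substF (P := fun _ x => R x) hR hg

theorem D1.app2 {R : N.M → N.M → Prop} (hR : D1 (fun v => R (v 0) (v 1)))
    {g g' : Ctx N → N.M} (hg : DG g) (hg' : DG g') : D1 (fun v => R (g v) (g' v)) := by
  refine D1.substF (P := fun v x => R x (g' v)) ?_ hg
  refine D1.substF (P := fun v x => R (v 0) x) ?_ hg'.tail
  exact D1.comp (R := fun v => R (v 0) (v 1)) hR (g := fun v => cons (v 1) (cons (v 0) v))
    (CM.cons (Tm.var 1) (CM.cons (Tm.var 0) CM.id))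

theorem D1.app3 {R : N.M → N.M → N.M → Prop} (hR : D1 (fun v => R (v 0) (v 1) (v 2)))
    {g g' g'' : Ctx N → N.M} (hg : DG g) (hg' : DG g') (hg'' : DG g'') :
    D1 (fun v => R (g v) (g' v) (g'' v)) := by
  refine D1.substF (P := fun v x => R x (g' v) (g'' v)) ?_ hg
  refine D1.substF (P := fun v x => R (v 0) x (g'' (Helper617.RM.tail v))) ?_ hg'.tail
  refine D1.substF (P := fun v x => R (v 1) (v 0) x) ?_ hg''.tail.tail
  exact D1.comp (R := fun v => R (v 0) (v 1) (v 2)) hR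
    (g := fun v => cons (v 2) (cons (v 1) (cons (v 0) v)))
    (CM.cons (Tm.var 2) (CM.cons (Tm.var 1) (CM.cons (Tm.var 0) CM.id)))

theorem DG.var (i : ℕ) : DG (fun v : Ctx N => v i) := DG.tm (Tm.var i)

theorem DG.const (a : N.M) : DG (fun _ : Ctx N => a) := DG.tm (Tm.const a)

theorem DG.op2 {f : N.M → N.M → N.M} (hf : D0 (fun v => v 0 = f (v 1) (v 2)))
    {g g' : Ctx N → N.M} (hg : DG g) (hg' : DG g') : DG (fun v => f (g v) (g' v)) :=
  D1.app3 (R := fun a b c => a = f b c) (D1.of hf) (DG.var 0) hg.tail hg'.tail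

theorem DG.add {g g' : Ctx N → N.M} (hg : DG g) (hg' : DG g') : DG (fun v => g v + g' v) :=
  DG.op2 (f := fun a b => a + b) (D0.eq (Tm.var 0) ((Tm.var 1).add (Tm.var 2))) hg hg'

theorem DG.mul {g g' : Ctx N → N.M} (hg : DG g) (hg' : DG g') : DG (fun v => g v * g' v) :=
  DG.op2 (f := fun a b => a * b) (D0.eq (Tm.var 0) ((Tm.var 1).mul (Tm.var 2))) hg hg'

theorem DG.pr {g g' : Ctx N → N.M} (hg : DG g) (hg' : DG g') :
    DG (fun v => Helper617.RM.pr (g v) (g' v)) :=
  DG.op2 (f := fun a b => Helper617.RM.pr a b) (D0.eq (Tm.var 0) ((Tm.var 1).pr (Tm.var 2))) hg hg'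

/-- functions of the model -/
def GF (f : N.M → N.M) : Prop := D0 (fun v => v 1 = f (v 0))

theorem DG.app {f : N.M → N.M} (hf : GF f) {g : Ctx N → N.M} (hg : DG g) :
    DG (fun v => f (g v)) :=
  D1.app2 (R := fun a b => b = f a) (D1.of hf) hg.tail (DG.var 0)

theorem GF.of {f : N.M → N.M} (hf : DG (fun v => f (v 0))) : GF f := by
  refine d0_of_D1 (R := fun a b => b = f a) ?_ ?_
  · exact (D1.comp (R := fun w => w 0 = f (Helper617.RM.tail w 0)) hf
      (g := fun w => cons (w 1) w) (CM.cons (Tm.var 1) CM.id)).1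
  · exact (D1.comp (R := fun w => w 0 = f (Helper617.RM.tail w 0)) hf
      (g := fun w => cons (w 1) w) (CM.cons (Tm.var 1) CM.id)).2

/-- a function whose graph is `Δ⁰₁` is a function of the model -/
theorem GF.graph {f : N.M → N.M} (hf : D1 (fun v => v 1 = f (v 0))) : GF f :=
  d0_of_D1 (R := fun a b => b = f a) hf.1 hf.2

theorem D1.eq {g g' : Ctx N → N.M} (hg : DG g) (hg' : DG g') : D1 (fun v => g v = g' v) :=
  D1.app2 (R := fun a b => a = b) (D1.of (D0.eq (Tm.var 0) (Tm.var 1))) hg hg'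

theorem D1.lt {g g' : Ctx N → N.M} (hg : DG g) (hg' : DG g') : D1 (fun v => g v < g' v) :=
  D1.app2 (R := fun a b => a < b) (D1.of (D0.lt (Tm.var 0) (Tm.var 1))) hg hg'

theorem D1.le {g g' : Ctx N → N.M} (hg : DG g) (hg' : DG g') : D1 (fun v => g v ≤ g' v) :=
  D1.app2 (R := fun a b => a ≤ b) (D1.of (D0.le (Tm.var 0) (Tm.var 1))) hg hg'

theorem D1.mem {g : Ctx N → N.M} (hg : DG g) {X : Set N.M} (hX : X ∈ N.Sets) :
    D1 (fun v => g v ∈ X) := D1.app1 (R := fun a => a ∈ X) (D1.of (D0.mem (Tm.var 0) hX)) hg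

theorem D1.MemC {g g' : Ctx N → N.M} (hg : DG g) (hg' : DG g') :
    D1 (fun v => Helper617.RM.MemC (g v) (g' v)) :=
  D1.app2 (R := fun a b => Helper617.RM.MemC a b) (D1.of (MemC_D0 (Tm.var 0) (Tm.var 1))) hg hg'

theorem D1.IsC {g : Ctx N → N.M} (hg : DG g) : D1 (fun v => Helper617.RM.IsC (g v)) :=
  D1.app1 (R := fun a => Helper617.RM.IsC a) (D1.of (IsC_D0 (Tm.var 0))) hg

theorem D1.ball {t : Ctx N → N.M} {P : Ctx N → N.M → Prop} (ht : DG t)
    (hP : D1 (fun w => P (Helper617.RM.tail w) (w 0))) : D1 (fun v => ∀ x, x < t v → P v x) := by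
  refine D1.substF (P := fun v y => ∀ x, x < y → P v x) ?_ ht
  have hP' : D1 (fun w => P (Helper617.RM.tail (Helper617.RM.tail w)) (w 0)) :=
    D1.comp (R := fun w => P (Helper617.RM.tail w) (w 0)) hP
      (g := fun w => cons (w 0) (Helper617.RM.tail (Helper617.RM.tail w)))
      (CM.cons (Tm.var 0) CM.tail.tail')
  refine ⟨S1.ball (P := fun v x => P (Helper617.RM.tail v) x) (Tm.var 0) hP'.1, ?_⟩
  refine (S1.bex (P := fun v x => ¬ P (Helper617.RM.tail v) x) (Tm.var 0) hP'.2).congr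
    fun v => ?_
  push Not
  rfl

theorem D1.bex {t : Ctx N → N.M} {P : Ctx N → N.M → Prop} (ht : DG t)
    (hP : D1 (fun w => P (Helper617.RM.tail w) (w 0))) : D1 (fun v => ∃ x, x < t v ∧ P v x) := by
  refine (D1.ball (P := fun v x => ¬ P v x) ht hP.not).not.congr fun v => ?_
  push Not
  rfl

/-! ### colours -/

section colours

/-- colour-valued terms -/
def CG (g : Ctx N → ZMod 3) : Prop := ∀ j, D1 (fun v => g v = j)

/-- colourings of the model -/
def CG1 (f : N.M → ZMod 3) : Prop := ∀ j, D0 (fun v => f (v 0) = j)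

theorem CG.const (c : ZMod 3) : CG (fun _ : Ctx N => c) := fun j => D1.const _

theorem CG.app {f : N.M → ZMod 3} (hf : CG1 f) {g : Ctx N → N.M} (hg : DG g) :
    CG (fun v => f (g v)) := fun j => D1.app1 (R := fun a => f a = j) (D1.of (hf j)) hg

theorem D1.finEx {ι : Type} [Finite ι] {P : ι → Ctx N → Prop} (h : ∀ i, D1 (P i)) :
    D1 (fun v => ∃ i, P i v) := by
  classical
  have := Fintype.ofFinite ι
  have key : ∀ T : Finset ι, D1 (fun v => ∃ i ∈ T, P i v) := by
    intro T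
    induction T using Finset.induction_on with
    | empty => exact (D1.const False).congr fun v => by simp
    | insert a T ha ih => exact ((h a).or ih).congr fun v => by simp
  exact (key Finset.univ).congr fun v => by simp

theorem CG.map {g : Ctx N → ZMod 3} (hg : CG g) (F : ZMod 3 → ZMod 3) :
    CG (fun v => F (g v)) := fun j =>
  (D1.finEx (ι := ZMod 3) (P := fun i v => g v = i ∧ F i = j)
    fun i => (hg i).and (D1.const _)).congr fun v => by
      constructor
      · rintro ⟨i, h1, h2⟩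
        show F (g v) = j
        rw [h1]; exact h2
      · intro h; exact ⟨g v, rfl, h⟩

theorem CG.eq {g g' : Ctx N → ZMod 3} (hg : CG g) (hg' : CG g') : D1 (fun v => g v = g' v) :=
  (D1.finEx (ι := ZMod 3) (P := fun i v => g v = i ∧ g' v = i)
    fun i => (hg i).and (hg' i)).congr fun v => by
      constructor
      · rintro ⟨i, h1, h2⟩; rw [h1, h2]
      · intro h; exact ⟨g' v, h, rfl⟩

end colours

end Pool.Agent.H645R2.R
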