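import Mathlib
import Pool.Agent.H645R2.R.Tac
import Pool.Agent.Helper617.RM.ACA

/-!
Statements of the steps for: over `RCA₀`, Hindman's theorem for 3 colours and sums of at most two
terms implies arithmetical comprehension.
-/

namespace Pool.Agent.H645R2.R

open Pool.Agent.Helper617.RM

universe u

set_option linter.unusedSectionVars false
set_option linter.unusedVariables false

section defs

variable {N : L2Structure.{u}} [IsModelRCA0 N]

/-- binary structure: `p2 n = 2 ^ n`, `top n` is the highest and `la n` the lowest position of a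
one in the binary expansion of `n` -/
structure Bin (p2 top la : N.M → N.M) : Prop where
  hp2 : GF p2
  htop : GF top
  hla : GF la
  p2_zero : p2 0 = 1
  p2_succ : ∀ n, p2 (n + 1) = p2 n + p2 n
  top_le : ∀ n, 0 < n → p2 (top n) ≤ n
  lt_top : ∀ n, n < p2 (top n + 1)
  la_eq : ∀ n, 0 < n → ∃ q, n = p2 (la n) * (q + q + 1)

/-- the facts about `p2` and `top` that are used -/
structure BinP (p2 top la : N.M → N.M) : Prop extends Bin p2 top la where
  p2_pos : ∀ n, 0 < p2 n
  p2_add : ∀ a b, p2 (a + b) = p2 a * p2 b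
  p2_lt : ∀ a b, a < b → p2 a < p2 b
  lt_p2 : ∀ n, n < p2 n
  top_unique : ∀ n i, p2 i ≤ n → n < p2 (i + 1) → top n = i
  dec : ∀ n, 0 < n → n = p2 (top n) ∨ ∃ m, 0 < m ∧ m < p2 (top n) ∧ n = m + p2 (top n)
  top_add : ∀ m i, m < p2 i → top (m + p2 i) = i
  top_mono : ∀ m n, 0 < m → m ≤ n → top m ≤ top n
  top_dbl : ∀ n, 0 < n → top (n + n) = top n + 1
  top_p2 : ∀ i, top (p2 i) = i
  modp : ∀ n R, ∃ r q, r < p2 R ∧ n = r + p2 R * q

/-- the facts about the binary structure that are used -/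
structure BinF (p2 top la : N.M → N.M) : Prop extends BinP p2 top la where
  la_unique : ∀ n p q, n = p2 p * (q + q + 1) → la n = p
  la_le_top : ∀ n, 0 < n → la n ≤ top n
  la_lt : ∀ m i, 0 < m → m < p2 i → la m < i
  la_add : ∀ m i q, 0 < m → m < p2 i → la (m + p2 i * q) = la m
  le_la : ∀ i q, 0 < q → i ≤ la (p2 i * q)
  la_dbl : ∀ n, 0 < n → la (n + n) = la n + 1
  la_p2 : ∀ i, la (p2 i) = i
  low : ∀ q, 0 < q → ∃ e r, q = p2 e + p2 (e + 1) * r

/-- some `z < p` is enumerated after stage `a` and by stage `b` -/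
def Ev (W : N.M → N.M → Prop) (p a b : N.M) : Prop := ∃ z, z < p ∧ (W b z ∧ ¬ W a z)

/-- `W` is an increasing enumeration (`W s z`: `z` is enumerated by stage `s`) -/
structure Enum (W : N.M → N.M → Prop) : Prop where
  hW : D0 (fun v => W (v 0) (v 1))
  mono : ∀ s t z, s ≤ t → W s z → W t z

/-- `M` bounds the stages of all `z < P` -/
def Bd (W : N.M → N.M → Prop) (P M : N.M) : Prop := ∀ z, z < P → ∀ s, W s z → W M z

/-- the colouring -/
structure ColSys (p2 top la : N.M → N.M) (W : N.M → N.M → Prop) (C : N.M → ZMod 3) : Prop where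
  hC : CG1 C
  pow : ∀ i, C (p2 (i + 1)) = C (p2 i) + 1
  add1 : ∀ m i a b, 0 < m → m < p2 i → top m = la m + a → i = la m + b → Ev W (la m) a b →
    C (m + p2 i) = C m + 1
  add0 : ∀ m i a b, 0 < m → m < p2 i → top m = la m + a → i = la m + b → ¬ Ev W (la m) a b →
    C (m + p2 i) = C m

/-- an unbounded set with all sums of at most two terms of one colour -/
structure Hom (C : N.M → ZMod 3) (X : Set N.M) : Prop where
  mem : X ∈ N.Sets
  unb : ∀ b, ∃ x ∈ X, b < x
  one : ∀ x ∈ X, ∀ y ∈ X, C x = C y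
  two : ∀ x ∈ X, ∀ y ∈ X, x < y → C (x + y) = C x

end defs

/-! ### the statements -/

/-- course-of-values recursion -/
def S_rec : Prop := ∀ (N : L2Structure.{u}) [IsModelRCA0 N] (pd : N.M → N.M)
  (st : N.M → N.M → N.M) (a : N.M), GF pd → D1 (fun v => v 2 = st (v 0) (v 1)) →
  (∀ n, 0 < n → pd n < n) →
  ∃ Φ : N.M → N.M, GF Φ ∧ Φ 0 = a ∧ ∀ n, 0 < n → Φ n = st n (Φ (pd n))

/-- existence of the binary structure -/
def S_bin : Prop := ∀ (N : L2Structure.{u}) [IsModelRCA0 N],
  ∃ p2 top la : N.M → N.M, Bin p2 top la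

/-- the facts about `p2` and `top` -/
def S_binp : Prop := ∀ (N : L2Structure.{u}) [IsModelRCA0 N] (p2 top la : N.M → N.M),
  Bin p2 top la → BinP p2 top la

/-- the facts about `la` -/
def S_binf : Prop := ∀ (N : L2Structure.{u}) [IsModelRCA0 N] (p2 top la : N.M → N.M),
  BinP p2 top la → BinF p2 top la

/-- existence of the colouring -/
def S_col : Prop := ∀ (N : L2Structure.{u}) [IsModelRCA0 N] (p2 top la : N.M → N.M)
  (W : N.M → N.M → Prop), BinF p2 top la → Enum W → ∃ C : N.M → ZMod 3, ColSys p2 top la W C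

/-- higher digits do not matter -/
def S_stab : Prop := ∀ (N : L2Structure.{u}) [IsModelRCA0 N] (p2 top la : N.M → N.M)
  (W : N.M → N.M → Prop) (C : N.M → ZMod 3), BinF p2 top la → Enum W → ColSys p2 top la W C →
  ∀ P M, Bd W P M → ∀ m i, 0 < m → m < p2 i → la m ≤ P → la m + M ≤ top m →
    ∀ q, C (m + p2 i * q) = C m

/-- the last gap -/
def S_gap : Prop := ∀ (N : L2Structure.{u}) [IsModelRCA0 N] (p2 top la : N.M → N.M)
  (W : N.M → N.M → Prop) (C : N.M → ZMod 3), BinF p2 top la → Enum W → ColSys p2 top la W C →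
  ∀ P M, Bd W P M → ∀ w i a, 0 < w → w < p2 i → la w ≤ P → la w + M ≤ i → top w = la w + a →
    ∀ q, 0 < q → (Ev W (la w) a M → C (w + p2 i * q) = C w + 1) ∧
      (¬ Ev W (la w) a M → C (w + p2 i * q) = C w)

/-- doubling -/
def S_diff : Prop := ∀ (N : L2Structure.{u}) [IsModelRCA0 N] (p2 top la : N.M → N.M)
  (W : N.M → N.M → Prop) (C : N.M → ZMod 3), BinF p2 top la → Enum W → ColSys p2 top la W C →
  ∀ w a, 0 < w → top w = la w + a →
    (W a (la w) ∧ (C (w + w) = C w + 1 ∨ C (w + w) = C w + 2)) ∨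
      (¬ W a (la w) ∧ C (w + w) = C w + 1)

/-- the main inequality -/
def S_ne : Prop := ∀ (N : L2Structure.{u}) [IsModelRCA0 N] (p2 top la : N.M → N.M)
  (W : N.M → N.M → Prop) (C : N.M → ZMod 3), BinF p2 top la → Enum W → ColSys p2 top la W C →
  ∀ w i M, Bd W (la w + 1) M → 0 < w → w < p2 i → la w + M ≤ i → ∀ q q', 0 < q → 0 < q' →
    C (w + p2 i * q) ≠ C ((w + w) + p2 (i + 1) * q')

/-- bounds for stages -/
def S_bd : Prop := ∀ (N : L2Structure.{u}) [IsModelRCA0 N]
  (W : N.M → N.M → Prop), Enum W → ∀ P M0, ∃ M, M0 ≤ M ∧ Bd W P M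

/-- homogeneous sets contain elements with arbitrarily high lowest position -/
def S_far : Prop := ∀ (N : L2Structure.{u}) [IsModelRCA0 N] (p2 top la : N.M → N.M)
  (W : N.M → N.M → Prop) (C : N.M → ZMod 3), BinF p2 top la → Enum W → ColSys p2 top la W C →
  ∀ X, Hom C X → ∀ b, ∃ x ∈ X, 0 < x ∧ b < la x

/-- every element of a homogeneous set bounds the stages -/
def S_settled : Prop := ∀ (N : L2Structure.{u}) [IsModelRCA0 N] (p2 top la : N.M → N.M)
  (W : N.M → N.M → Prop) (C : N.M → ZMod 3), BinF p2 top la → Enum W → ColSys p2 top la W C →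
  ∀ X, Hom C X → ∀ h ∈ X, 0 < h → ∀ a, top h = la h + a → Bd W (la h) a

/-- the conclusion: if all colourings of the model with three colours have a homogeneous set,
then the model satisfies `Σ⁰₁` comprehension -/
def S_rev : Prop := ∀ (N : L2Structure.{u}) [IsModelRCA0 N],
  (∀ C : N.M → ZMod 3, CG1 C → ∃ X, Hom C X) → Sig1 N

end Pool.Agent.H645R2.R
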