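import Mathlib
import Pool.Agent.H645R2.R.Defs

namespace Pool.Agent.H645R2.R

open Pool.Agent.Helper617.RM

universe u

set_option linter.unusedSectionVars false
set_option linter.unusedVariables false

theorem bd : S_bd.{u} := by
  intro N _ W hW P M0
  obtain ⟨b, hb⟩ := strong_bounding (Q := fun z s => W s z)
    (D0.rel hW.hW (Tm.var 1) (Tm.var 0)) P
  refine ⟨max b M0, le_max_right _ _, fun z hz s hs => ?_⟩
  obtain ⟨k, hk, hk2⟩ := hb z hz ⟨s, hs⟩
  exact hW.mono k _ z (hk.le.trans (le_max_left _ _)) hk2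

end Pool.Agent.H645R2.R
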