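import Mathlib
import Pool.Agent.H645R2.R.Defs

/-! Task U02: existence of the binary structure. -/

namespace Pool.Agent.H645R2.R

open Pool.Agent.Helper617.RM

universe u

set_option linter.unusedSectionVars false
set_option linter.unusedVariables false

namespace BinEx

variable {N : L2Structure.{u}} [IsModelRCA0 N]

theorem exists_p2 (N : L2Structure.{u}) [IsModelRCA0 N] :
    ∃ p2 : N.M → N.M, GF p2 ∧ p2 0 = 1 ∧ ∀ n, p2 (n + 1) = p2 n + p2 n :=
  exists_recursion (G := fun x : N.M => x + x)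
    (D0.eq (Tm.var 1) ((Tm.var 0).add (Tm.var 0))) 1

theorem one_pos' : (0 : N.M) < 1 := by
  have := lt1 (0 : N.M)
  rwa [zero_add] at this

theorem p2_pos {p2 : N.M → N.M} (hp : GF p2) (h0 : p2 0 = 1)
    (hs : ∀ n, p2 (n + 1) = p2 n + p2 n) (n : N.M) : 0 < p2 n := by
  refine ind_S1 (P := fun n => 0 < p2 n)
    (D1.lt (DG.const 0) (DG.app hp (DG.var 0))).1 ?_ ?_ n
  · rw [h0]
    exact one_pos'
  · intro m hm
    rw [hs]
    exact add_pos hm hm

theorem lt_p2 {p2 : N.M → N.M} (hp : GF p2) (h0 : p2 0 = 1)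
    (hs : ∀ n, p2 (n + 1) = p2 n + p2 n) (n : N.M) : n < p2 n := by
  refine ind_S1 (P := fun n => n < p2 n)
    (D1.lt (DG.var 0) (DG.app hp (DG.var 0))).1 ?_ ?_ n
  · rw [h0]
    exact one_pos'
  · intro m hm
    rw [hs]
    have h1 := succ_le' hm
    have h2 := p2_pos hp h0 hs m
    calc m + 1 ≤ p2 m := h1
      _ < p2 m + p2 m := lt_add_of_pos_left _ h2

theorem p2_add {p2 : N.M → N.M} (hp : GF p2) (h0 : p2 0 = 1)
    (hs : ∀ n, p2 (n + 1) = p2 n + p2 n) (a b : N.M) : p2 (a + b) = p2 a * p2 b := by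
  refine ind_S1 (P := fun b => p2 (a + b) = p2 a * p2 b)
    (D1.eq (DG.app hp (DG.add (DG.const a) (DG.var 0)))
      (DG.mul (DG.const (p2 a)) (DG.app hp (DG.var 0)))).1 ?_ ?_ b
  · rw [add_zero, h0, mul_one]
  · intro m hm
    rw [← add_assoc, hs, hm, hs]
    ring

theorem parity (n : N.M) : ∃ m, m < n + 1 ∧ (n = m + m ∨ n = m + m + 1) := by
  refine ind_S1 (P := fun n => ∃ m, m < n + 1 ∧ (n = m + m ∨ n = m + m + 1))
    (D1.bex (P := fun v m => v 0 = m + m ∨ v 0 = m + m + 1)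
      (DG.add (DG.var 0) (DG.const 1))
      (D1.or (D1.eq (DG.var 1) (DG.add (DG.var 0) (DG.var 0)))
        (D1.eq (DG.var 1) (DG.add (DG.add (DG.var 0) (DG.var 0)) (DG.const 1))))).1 ?_ ?_ n
  · exact ⟨0, lt1_of_le le_rfl, Or.inl (add_zero 0).symm⟩
  · rintro m ⟨k, hk, h | h⟩
    · refine ⟨k, lt_trans hk (lt1 _), Or.inr ?_⟩
      rw [h]
    · refine ⟨k + 1, ?_, Or.inl ?_⟩
      · have h1 := le_of_lt1 hk
        have h2 : k < m := by
          rw [h]
          exact lt1_of_le (le_add_of_nonneg_left (zero_le' k))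
        exact lt1_of_le ((succ_le' h2).trans (lt1 m).le)
      · rw [h]
        ring

theorem even_ne_odd (x y : N.M) : x + x ≠ y + y + 1 := by
  intro h
  rcases le_or_gt x y with h1 | h1
  · have : x + x ≤ y + y := add_le_add h1 h1
    exact absurd h (lt_of_le_of_lt this (lt1 _)).ne
  · have h2 := succ_le' h1
    have h3 : (y + 1) + (y + 1) ≤ x + x := add_le_add h2 h2
    have h4 : y + y + 1 < (y + 1) + (y + 1) := by
      have : (y + 1) + (y + 1) = (y + y + 1) + 1 := by ring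
      rw [this]
      exact lt1 _
    exact absurd h.symm (lt_of_lt_of_le h4 h3).ne

theorem la_unique {p2 : N.M → N.M} (hp : GF p2) (h0 : p2 0 = 1)
    (hs : ∀ n, p2 (n + 1) = p2 n + p2 n) {p q p' q' : N.M}
    (h : p2 p * (q + q + 1) = p2 p' * (q' + q' + 1)) : p = p' := by
  have key : ∀ {p q p' q' : N.M}, p < p' → p2 p * (q + q + 1) = p2 p' * (q' + q' + 1) →
      False := by
    intro p q p' q' hlt h
    obtain ⟨d, hd⟩ := exists_sub (succ_le' hlt)
    have h1 : p2 p' = p2 p * (p2 d + p2 d) := by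
      rw [hd, show p + 1 + d = p + (d + 1) by ring, p2_add hp h0 hs, hs]
    rw [h1, mul_assoc] at h
    have h2 := mul_left_cancel₀ (p2_pos hp h0 hs p).ne' h
    have h3 : (p2 d + p2 d) * (q' + q' + 1) = p2 d * (q' + q' + 1) + p2 d * (q' + q' + 1) := by
      ring
    rw [h3] at h2
    exact even_ne_odd _ _ h2.symm
  rcases lt_trichotomy p p' with h1 | h1 | h1
  · exact absurd h (fun h => key h1 h)
  · exact h1
  · exact absurd h.symm (fun h => key h1 h)

theorem exists_la {p2 : N.M → N.M} (hp : GF p2) (h0 : p2 0 = 1)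
    (hs : ∀ n, p2 (n + 1) = p2 n + p2 n) (n : N.M) (hn : 0 < n) :
    ∃ p, p < n + 1 ∧ ∃ q, q < n + 1 ∧ n = p2 p * (q + q + 1) := by
  have key : ∀ b n : N.M, n < b → 0 < n →
      ∃ p, p < n + 1 ∧ ∃ q, q < n + 1 ∧ n = p2 p * (q + q + 1) := by
    intro b
    refine ind_S1 (P := fun b => ∀ n : N.M, n < b → 0 < n →
      ∃ p, p < n + 1 ∧ ∃ q, q < n + 1 ∧ n = p2 p * (q + q + 1)) ?_ ?_ ?_ b
    · refine (D1.ball (P := fun _ n => 0 < n →
        ∃ p, p < n + 1 ∧ ∃ q, q < n + 1 ∧ n = p2 p * (q + q + 1)) (DG.var 0) ?_).1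
      refine D1.imp (D1.lt (DG.const 0) (DG.var 0)) ?_
      refine D1.bex (P := fun v p => ∃ q, q < v 0 + 1 ∧ v 0 = p2 p * (q + q + 1))
        (DG.add (DG.var 0) (DG.const 1)) ?_
      refine D1.bex (P := fun v q => v 1 = p2 (v 0) * (q + q + 1))
        (DG.add (DG.var 1) (DG.const 1)) ?_
      exact D1.eq (DG.var 2) (DG.mul (DG.app hp (DG.var 1))
        (DG.add (DG.add (DG.var 0) (DG.var 0)) (DG.const 1)))
    · intro n hn
      exact absurd hn (not_lt.2 (zero_le' n))
    · intro b ih n hnb hn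
      rcases lt_or_eq_of_le (le_of_lt1 hnb) with h1 | h1
      · exact ih n h1 hn
      · obtain ⟨m, hm, h | h⟩ := parity n
        · have hm0 : 0 < m := by
            apply Helper617.RM.pos_of_ne_zero
            rintro rfl
            rw [add_zero] at h
            exact absurd h hn.ne'
          have hmn : m < n := by
            conv_rhs => rw [h]
            exact lt_add_of_pos_left _ hm0
          obtain ⟨p, hp1, q, hq1, hpq⟩ := ih m (h1 ▸ hmn) hm0
          refine ⟨p + 1, ?_, q, ?_, ?_⟩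
          · have h2 : p ≤ m := le_of_lt1 hp1
            exact lt1_of_le (succ_le' (lt_of_le_of_lt h2 hmn))
          · exact lt_trans hq1 (by
              have := succ_le' hmn
              exact lt_of_le_of_lt this (lt1 n))
          · rw [hs, h]
            conv_lhs => rw [hpq]
            ring
        · refine ⟨0, lt1_of_le (zero_le' n), m, hm, ?_⟩
          rw [h0, one_mul]
          exact h
  exact key (n + 1) n (lt1 n) hn

theorem q_lt {p2 : N.M → N.M} (hp : GF p2) (h0 : p2 0 = 1)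
    (hs : ∀ n, p2 (n + 1) = p2 n + p2 n) {n p q : N.M} (h : n = p2 p * (q + q + 1)) :
    q < n + 1 := by
  have h1 : 1 ≤ p2 p := one_le_of_pos (p2_pos hp h0 hs p)
  have h2 : q + q + 1 ≤ n := by
    rw [h]
    exact le_mul_of_one_le_left (zero_le' _) h1
  have h3 : q ≤ q + q + 1 :=
    (le_add_of_nonneg_left (zero_le' q)).trans (lt1 _).le
  exact lt1_of_le (h3.trans h2)

end BinEx

open BinEx in
/-- U02 -/
theorem bin : S_bin.{u} := by
  intro N _
  obtain ⟨p2, hp, h0, hs⟩ := exists_p2 N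
  have hpos := p2_pos hp h0 hs
  have hlt := lt_p2 hp h0 hs
  -- top
  have htop : ∀ n : N.M, ∃ i, n < p2 (i + 1) ∧ ∀ m, m < i → ¬ n < p2 (m + 1) := by
    intro n
    obtain ⟨i, -, h1, h2⟩ := lnp_S1 (P := fun i => n < p2 (i + 1))
      (D1.lt (DG.const n) (DG.app hp (DG.add (DG.var 0) (DG.const 1)))).1 n (by
        rw [hs]
        exact (hlt n).trans (lt_add_of_pos_left _ (hpos n)))
    exact ⟨i, h1, h2⟩
  choose top htop1 htop2 using htop
  have hgtop : GF top := by
    refine GF.graph ?_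
    refine D1.congr (R := fun v : Ctx N => v 0 < p2 (v 1 + 1) ∧
      ∀ i, i < v 1 → ¬ v 0 < p2 (i + 1)) ?_ ?_
    · refine D1.and (D1.lt (DG.var 0) (DG.app hp (DG.add (DG.var 1) (DG.const 1)))) ?_
      refine D1.ball (P := fun v i => ¬ v 0 < p2 (i + 1)) (DG.var 1) ?_
      exact D1.not (D1.lt (DG.var 1) (DG.app hp (DG.add (DG.var 0) (DG.const 1))))
    · intro v
      constructor
      · rintro ⟨h1, h2⟩
        rcases lt_trichotomy (v 1) (top (v 0)) with h3 | h3 | h3
        · exact absurd h1 (htop2 _ _ h3)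
        · exact h3
        · exact absurd (htop1 (v 0)) (h2 _ h3)
      · intro h
        rw [h]
        exact ⟨htop1 _, htop2 _⟩
  -- la
  have hla : ∀ n : N.M, ∃ p, (0 < n → ∃ q, n = p2 p * (q + q + 1)) ∧ (n = 0 → p = 0) := by
    intro n
    rcases eq_or_ne n 0 with h | h
    · exact ⟨0, fun h1 => absurd h h1.ne', fun _ => rfl⟩
    · obtain ⟨p, -, q, -, hq⟩ := exists_la hp h0 hs n (Helper617.RM.pos_of_ne_zero h)
      exact ⟨p, fun _ => ⟨q, hq⟩, fun h1 => absurd h1 h⟩
  choose la hla1 hla2 using hla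
  have hgla : GF la := by
    refine GF.graph ?_
    refine D1.congr (R := fun v : Ctx N => (0 < v 0 ∧ ∃ q, q < v 0 + 1 ∧
      v 0 = p2 (v 1) * (q + q + 1)) ∨ (v 0 = 0 ∧ v 1 = 0)) ?_ ?_
    · refine D1.or (D1.and (D1.lt (DG.const 0) (DG.var 0)) ?_)
        (D1.and (D1.eq (DG.var 0) (DG.const 0)) (D1.eq (DG.var 1) (DG.const 0)))
      refine D1.bex (P := fun v q => v 0 = p2 (v 1) * (q + q + 1))
        (DG.add (DG.var 0) (DG.const 1)) ?_
      exact D1.eq (DG.var 1) (DG.mul (DG.app hp (DG.var 2))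
        (DG.add (DG.add (DG.var 0) (DG.var 0)) (DG.const 1)))
    · intro v
      constructor
      · rintro (⟨h1, q, -, hq⟩ | ⟨h1, h2⟩)
        · obtain ⟨q', hq'⟩ := hla1 (v 0) h1
          exact la_unique hp h0 hs (hq.symm.trans hq')
        · rw [h2, hla2 _ h1]
      · intro h
        rcases eq_or_ne (v 0) 0 with h1 | h1
        · right
          refine ⟨h1, ?_⟩
          rw [h, hla2 _ h1]
        · left
          obtain ⟨q, hq⟩ := hla1 (v 0) (Helper617.RM.pos_of_ne_zero h1)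
          rw [h]
          exact ⟨Helper617.RM.pos_of_ne_zero h1, q, q_lt hp h0 hs hq, hq⟩
  refine ⟨p2, top, la, hp, hgtop, hgla, h0, hs, fun n hn => ?_, htop1, hla1⟩
  rcases eq_zero_or_succ (top n) with h | ⟨k, hk⟩
  · rw [h, h0]
    exact one_le_of_pos hn
  · rw [hk]
    have h1 : k < top n := by
      rw [hk]
      exact lt1 k
    exact not_lt.1 (htop2 n k h1)

end Pool.Agent.H645R2.R
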