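import Mathlib
import Pool.Agent.H645R2.R.Defs

namespace Pool.Agent.H645R2.R

open Pool.Agent.Helper617.RM

universe u

set_option linter.unusedSectionVars false
set_option linter.unusedVariables false

namespace BinLa

variable {N : L2Structure.{u}} [IsModelRCA0 N]

theorem parity (x y : N.M) : x + x ≠ y + y + 1 := by
  rcases le_or_gt x y with h | h
  · exact ne_of_lt ((add_le_add h h).trans_lt (lt1 _))
  · have h1 : y + 1 ≤ x := succ_le' h
    have h2 : (y + 1) + (y + 1) ≤ x + x := add_le_add h1 h1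
    have h3 : (y + 1) + (y + 1) = (y + y + 1) + 1 := by ring
    rw [h3] at h2
    exact ne_of_gt ((lt1 _).trans_le h2)

theorem cancel {a b c : N.M} (ha : 0 < a) (h : a * b = a * c) : b = c := by
  rcases lt_trichotomy b c with h1 | h1 | h1
  · exact absurd h (ne_of_lt (mul_lt_mul_aux ha h1))
  · exact h1
  · exact absurd h (ne_of_gt (mul_lt_mul_aux ha h1))

variable {p2 top la : N.M → N.M}

theorem aux (h : BinP p2 top la) {p p' q q' : N.M} (hpp : p < p')
    (he : p2 p * (q + q + 1) = p2 p' * (q' + q' + 1)) : False := by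
  obtain ⟨d, hd⟩ := (le_iff_add' _ _).1 (succ_le' hpp)
  have h1 : p2 p' = p2 p * (p2 d + p2 d) := by
    rw [hd, add_assoc, add_comm 1 d, h.p2_add, h.p2_succ]
  rw [h1, mul_assoc] at he
  have h2 := cancel (h.p2_pos p) he
  have h3 : (p2 d + p2 d) * (q' + q' + 1) =
      p2 d * (q' + q' + 1) + p2 d * (q' + q' + 1) := by ring
  rw [h3] at h2
  exact parity _ _ h2.symm

theorem val_unique (h : BinP p2 top la) {p p' q q' : N.M}
    (he : p2 p * (q + q + 1) = p2 p' * (q' + q' + 1)) : p = p' := by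
  rcases lt_trichotomy p p' with h1 | h1 | h1
  · exact (aux h h1 he).elim
  · exact h1
  · exact (aux h h1 he.symm).elim

theorem pos_of (h : BinP p2 top la) (p q : N.M) : 0 < p2 p * (q + q + 1) := by
  have h1 : 0 < q + q + 1 := (zero_le' _).trans_lt (lt1 _)
  have h2 := mul_lt_mul_aux (h.p2_pos p) h1
  rwa [mul_zero] at h2

theorem la_unique (h : BinP p2 top la) (n p q : N.M) (hn : n = p2 p * (q + q + 1)) :
    la n = p := by
  have h0 : 0 < n := by rw [hn]; exact pos_of h p q
  obtain ⟨q', hq'⟩ := h.la_eq n h0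
  exact val_unique h (q := q') (q' := q) (hq'.symm.trans hn)

theorem p2_le (h : BinP p2 top la) {a b : N.M} (hab : a ≤ b) : p2 a ≤ p2 b := by
  rcases eq_or_lt_of_le hab with h1 | h1
  · rw [h1]
  · exact (h.p2_lt _ _ h1).le

theorem lt_of_p2 (h : BinP p2 top la) {a b : N.M} (hab : p2 a < p2 b) : a < b := by
  by_contra hcon
  exact absurd (p2_le h (not_lt.1 hcon)) (not_le.2 hab)

theorem p2_la_le (h : BinP p2 top la) {n : N.M} (hn : 0 < n) : p2 (la n) ≤ n := by
  obtain ⟨q, hq⟩ := h.la_eq n hn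
  have h1 : n = p2 (la n) + p2 (la n) * (q + q) := by
    conv_lhs => rw [hq]
    ring
  conv_rhs => rw [h1]
  exact (le_iff_add' _ _).2 ⟨_, rfl⟩

end BinLa

open BinLa in
theorem binf : S_binf.{u} := by
  intro N _ p2 top la h
  refine { h with
    la_unique := BinLa.la_unique h
    la_le_top := ?_
    la_lt := ?_
    la_add := ?_
    le_la := ?_
    la_dbl := ?_
    la_p2 := ?_
    low := ?_ }
  · intro n hn
    exact le_of_lt1 (lt_of_p2 h ((p2_la_le h hn).trans_lt (h.lt_top n)))
  · intro m i hm hmi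
    exact lt_of_p2 h ((p2_la_le h hm).trans_lt hmi)
  · intro m i q hm hmi
    have h1 : la m < i := lt_of_p2 h ((p2_la_le h hm).trans_lt hmi)
    obtain ⟨d, hd⟩ := (le_iff_add' _ _).1 (succ_le' h1)
    obtain ⟨s, hs⟩ := h.la_eq m hm
    have h2 : p2 i = p2 (la m) * (p2 d + p2 d) := by
      rw [hd, add_assoc, add_comm 1 d, h.p2_add, h.p2_succ]
    refine BinLa.la_unique h _ _ (s + p2 d * q) ?_
    rw [h2]
    conv_lhs => rw [hs]
    have h3 : la (p2 (la m) * (s + s + 1)) = la m := by rw [← hs]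
    rw [h3]
    ring
  · intro i q hq
    obtain ⟨r, hr⟩ := h.la_eq q hq
    have h1 : la (p2 i * q) = i + la q := by
      refine BinLa.la_unique h _ _ r ?_
      rw [h.p2_add, mul_assoc, ← hr]
    rw [h1]
    exact (le_iff_add' _ _).2 ⟨_, rfl⟩
  · intro n hn
    obtain ⟨q, hq⟩ := h.la_eq n hn
    refine BinLa.la_unique h _ _ q ?_
    rw [h.p2_succ, add_mul, ← hq]
  · intro i
    exact BinLa.la_unique h _ _ 0 (by ring)
  · intro q hq
    obtain ⟨r, hr⟩ := h.la_eq q hq
    refine ⟨la q, r, ?_⟩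
    rw [h.p2_succ]
    conv_lhs => rw [hr]
    ring

end Pool.Agent.H645R2.R
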