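import Mathlib
import Pool.Agent.H645R2.R.Defs

/-!
The facts about `p2` and `top`.
-/

namespace Pool.Agent.H645R2.R

open Pool.Agent.Helper617.RM

universe u

set_option linter.unusedSectionVars false
set_option linter.unusedVariables false

namespace BinPF

variable {N : L2Structure.{u}} [IsModelRCA0 N] {p2 top la : N.M → N.M}

theorem p2_pos (h : Bin p2 top la) (n : N.M) : 0 < p2 n := by
  have hp2 := h.hp2
  refine ind_S1 (P := fun n => 0 < p2 n) (D1.lt (DG.const _) (DG.app hp2 (DG.var _))).1 ?_ ?_ n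
  · rw [h.p2_zero]; exact one_pos
  · intro n hn
    rw [h.p2_succ]
    exact add_pos hn hn

theorem p2_add (h : Bin p2 top la) (a b : N.M) : p2 (a + b) = p2 a * p2 b := by
  have hp2 := h.hp2
  refine ind_S1 (P := fun b => p2 (a + b) = p2 a * p2 b)
    (D1.eq (DG.app hp2 (DG.add (DG.const _) (DG.var _)))
      (DG.mul (DG.const _) (DG.app hp2 (DG.var _)))).1 ?_ ?_ b
  · rw [h.p2_zero, add_zero, mul_one]
  · intro n hn
    rw [← add_assoc, h.p2_succ, h.p2_succ, hn, mul_add]

theorem one_le (h : Bin p2 top la) (n : N.M) : 1 ≤ p2 n := one_le_of_pos (p2_pos h n)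

theorem p2_lt (h : Bin p2 top la) (a b : N.M) (hab : a < b) : p2 a < p2 b := by
  obtain ⟨d, rfl⟩ := exists_sub (succ_le' hab)
  rw [p2_add h, h.p2_succ]
  have h1 : p2 a + p2 a ≤ (p2 a + p2 a) * p2 d := le_mul_of_one_le_right (zero_le' _) (one_le h d)
  exact lt_of_lt_of_le (lt_add_of_pos_right _ (p2_pos h a)) h1

theorem p2_le (h : Bin p2 top la) (a b : N.M) (hab : a ≤ b) : p2 a ≤ p2 b := by
  rcases eq_or_lt_of_le hab with rfl | h'
  · exact le_rfl
  · exact (p2_lt h a b h').le

theorem lt_p2 (h : Bin p2 top la) (n : N.M) : n < p2 n := by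
  have hp2 := h.hp2
  refine ind_S1 (P := fun n => n < p2 n) (D1.lt (DG.var _) (DG.app hp2 (DG.var _))).1 ?_ ?_ n
  · exact p2_pos h 0
  · intro n hn
    rw [h.p2_succ]
    exact lt_of_le_of_lt (succ_le' hn) (lt_add_of_pos_right _ (p2_pos h n))

theorem top_unique (h : Bin p2 top la) (n i : N.M) (h1 : p2 i ≤ n) (h2 : n < p2 (i + 1)) :
    top n = i := by
  have hn : 0 < n := lt_of_lt_of_le (p2_pos h i) h1
  rcases lt_trichotomy (top n) i with h3 | h3 | h3
  · have := p2_le h _ _ (succ_le' h3)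
    exact absurd (lt_of_lt_of_le (h.lt_top n) (this.trans h1)) (lt_irrefl _)
  · exact h3
  · have := p2_le h _ _ (succ_le' h3)
    exact absurd (lt_of_lt_of_le h2 (this.trans (h.top_le n hn))) (lt_irrefl _)

theorem dec (h : Bin p2 top la) (n : N.M) (hn : 0 < n) :
    n = p2 (top n) ∨ ∃ m, 0 < m ∧ m < p2 (top n) ∧ n = m + p2 (top n) := by
  obtain ⟨m, hm⟩ := exists_sub (h.top_le n hn)
  by_cases hm0 : m = 0
  · left
    rw [hm0, add_zero] at hm
    exact hm
  · right
    refine ⟨m, Helper617.RM.pos_of_ne_zero hm0, ?_, by rw [add_comm]; exact hm⟩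
    have h1 := h.lt_top n
    rw [h.p2_succ] at h1
    by_contra hcon
    have h2 : p2 (top n) + p2 (top n) ≤ p2 (top n) + m := by
      have := not_lt.1 hcon
      exact add_le_add le_rfl this
    rw [← hm] at h2
    exact absurd (lt_of_lt_of_le h1 h2) (lt_irrefl _)

theorem top_add (h : Bin p2 top la) (m i : N.M) (hm : m < p2 i) : top (m + p2 i) = i := by
  apply top_unique h
  · exact le_add_of_nonneg_left (zero_le' m)
  · rw [h.p2_succ]
    exact add_lt_add_of_lt_of_le hm le_rfl

theorem top_mono (h : Bin p2 top la) (m n : N.M) (hm : 0 < m) (hmn : m ≤ n) : top m ≤ top n := by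
  by_contra hcon
  have h3 := not_le.1 hcon
  have := p2_le h _ _ (succ_le' h3)
  exact absurd (lt_of_lt_of_le (h.lt_top n) (this.trans ((h.top_le m hm).trans hmn)))
    (lt_irrefl _)

theorem top_dbl (h : Bin p2 top la) (n : N.M) (hn : 0 < n) : top (n + n) = top n + 1 := by
  apply top_unique h
  · rw [h.p2_succ]
    exact add_le_add (h.top_le n hn) (h.top_le n hn)
  · rw [h.p2_succ (top n + 1)]
    exact add_lt_add (h.lt_top n) (h.lt_top n)

theorem top_p2 (h : Bin p2 top la) (i : N.M) : top (p2 i) = i := by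
  apply top_unique h _ _ le_rfl
  rw [h.p2_succ]
  exact lt_add_of_pos_right _ (p2_pos h i)

theorem modp (h : Bin p2 top la) (n R : N.M) : ∃ r q, r < p2 R ∧ n = r + p2 R * q := by
  have hp2 := h.hp2
  have key : ∃ r, r < n + 1 ∧ ∃ q, q < n + 1 ∧ (r < p2 R ∧ n = r + p2 R * q) := by
    refine ind_S1 (P := fun n => ∃ r, r < n + 1 ∧ ∃ q, q < n + 1 ∧
      (r < p2 R ∧ n = r + p2 R * q)) ?_ ?_ ?_ n
    · refine And.left (b := _) (show D1 _ from ?_)
      (repeat' (first | assumption | exact DG.var _ | refine DG.add ?_ ?_ | refine DG.mul ?_ ?_ | refine DG.pr ?_ ?_ | exact DG.const _ | refine DG.app (by assumption) ?_ | refine CG.app (by assumption) ?_ | exact CG.const _ | refine D1.MemC ?_ ?_ | refine D1.IsC ?_ | refine D1.and ?_ ?_ | refine D1.or ?_ ?_ | refine D1.bex ?_ ?_ | refine D1.ball ?_ ?_ | refine D1.iff ?_ ?_ | refine D1.imp ?_ ?_ | refine D1.not ?_ | refine D1.lt ?_ ?_ | refine D1.le ?_ ?_ | refine D1.eq ?_ ?_ | refine CG.eq ?_ ?_ | refine D1.mem ?_ (by assumption) | exact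 D1.const _))
    · refine ⟨0, lt1 0, 0, lt1 0, p2_pos h R, ?_⟩
      rw [mul_zero, add_zero]
    · rintro n ⟨r, hr, q, hq, hrR, hn⟩
      by_cases hc : r + 1 < p2 R
      · refine ⟨r + 1, ?_, q, ?_, hc, ?_⟩
        · exact add_lt_add_of_lt_of_le hr le_rfl
        · exact hq.trans (lt1 _)
        · rw [add_right_comm, ← hn]
      · have h1 : r + 1 = p2 R := le_antisymm (succ_le' hrR) (not_lt.1 hc)
        refine ⟨0, ?_, q + 1, ?_, p2_pos h R, ?_⟩
        · exact lt_of_le_of_lt (zero_le' _) (lt1 _)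
        · exact add_lt_add_of_lt_of_le hq le_rfl
        · rw [zero_add, mul_add, mul_one]
          conv_rhs => rw [← h1]
          rw [h1]
          have h2 : n + 1 = r + p2 R * q + 1 := by rw [← hn]
          rw [h2, add_right_comm, h1, add_comm]
  obtain ⟨r, -, q, -, h1, h2⟩ := key
  exact ⟨r, q, h1, h2⟩

end BinPF

theorem binp : S_binp.{u} := by
  intro N _ p2 top la h
  exact { toBin := h
          p2_pos := BinPF.p2_pos h
          p2_add := BinPF.p2_add h
          p2_lt := BinPF.p2_lt h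
          lt_p2 := BinPF.lt_p2 h
          top_unique := BinPF.top_unique h
          dec := BinPF.dec h
          top_add := BinPF.top_add h
          top_mono := BinPF.top_mono h
          top_dbl := BinPF.top_dbl h
          top_p2 := BinPF.top_p2 h
          modp := BinPF.modp h }

end Pool.Agent.H645R2.R
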