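import Mathlib
import Pool.Agent.H645R2.R.Defs
namespace Pool.Agent.H645R2.R
open Pool.Agent.Helper617.RM
universe u
set_option linter.unusedSectionVars false
set_option linter.unusedVariables false

namespace ColEx

variable {N : L2Structure.{u}} [IsModelRCA0 N]

/-- the cyclic successor of `0, 1, 2` -/
noncomputable def inc (x : N.M) : N.M := if x = 0 then 1 else if x = 1 then 1 + 1 else 0

/-- colours -/
noncomputable def tZ (x : N.M) : ZMod 3 := if x = 0 then 0 else if x = 1 then 1 else 2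

theorem two_ne_zero' : (1 + 1 : N.M) ≠ 0 := (add_pos zero_lt_one zero_lt_one).ne'

theorem two_ne_one' : (1 + 1 : N.M) ≠ 1 := (lt1 (1 : N.M)).ne'

theorem tZ_inc (x : N.M) : tZ (inc x) = tZ x + 1 := by
  unfold inc
  by_cases h0 : x = 0
  · rw [if_pos h0]
    unfold tZ
    rw [if_neg one_ne_zero, if_pos rfl, if_pos h0]
    decide
  · rw [if_neg h0]
    by_cases h1 : x = 1
    · rw [if_pos h1]
      unfold tZ
      rw [if_neg two_ne_zero', if_neg two_ne_one', if_neg h0, if_pos h1]
      decide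
    · rw [if_neg h1]
      unfold tZ
      rw [if_pos rfl, if_neg h0, if_neg h1]
      decide

theorem tZ_zero (x : N.M) : tZ x = 0 ↔ x = 0 := by
  unfold tZ
  by_cases h0 : x = 0
  · rw [if_pos h0]
    exact ⟨fun _ => h0, fun _ => rfl⟩
  · rw [if_neg h0]
    refine ⟨fun h => ?_, fun h => absurd h h0⟩
    split_ifs at h
    · exact absurd h (by decide)
    · exact absurd h (by decide)

theorem tZ_one (x : N.M) : tZ x = 1 ↔ x = 1 := by
  unfold tZ
  by_cases h0 : x = 0
  · rw [if_pos h0]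
    refine ⟨fun h => absurd h (by decide), fun h => ?_⟩
    rw [h0] at h
    exact absurd h zero_ne_one
  · rw [if_neg h0]
    by_cases h1 : x = 1
    · rw [if_pos h1]
      exact ⟨fun _ => h1, fun _ => rfl⟩
    · rw [if_neg h1]
      exact ⟨fun h => absurd h (by decide), fun h => absurd h h1⟩

theorem tZ_two (x : N.M) : tZ x = 2 ↔ (¬ x = 0 ∧ ¬ x = 1) := by
  unfold tZ
  by_cases h0 : x = 0
  · rw [if_pos h0]
    exact ⟨fun h => absurd h (by decide), fun h => absurd h0 h.1⟩
  · rw [if_neg h0]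
    by_cases h1 : x = 1
    · rw [if_pos h1]
      exact ⟨fun h => absurd h (by decide), fun h => absurd h1 h.2⟩
    · rw [if_neg h1]
      exact ⟨fun _ => ⟨h0, h1⟩, fun _ => rfl⟩

theorem hj3 (j : ZMod 3) : j = 0 ∨ j = 1 ∨ j = 2 := by
  revert j
  decide

theorem inc_GF : GF (inc : N.M → N.M) := by
  refine GF.graph (D1.congr (R := fun v => (v 0 = 0 ∧ v 1 = 1) ∨
    (¬ v 0 = 0 ∧ ((v 0 = 1 ∧ v 1 = 1 + 1) ∨ (¬ v 0 = 1 ∧ v 1 = 0)))) ?_ ?_)
  · (repeat' (first | assumption | exact DG.var _ | refine DG.add ?_ ?_ | exact DG.const _ |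
      refine D1.and ?_ ?_ | refine D1.or ?_ ?_ | refine D1.not ?_ | refine D1.eq ?_ ?_))
  · intro v
    unfold inc
    by_cases h0 : v 0 = 0
    · simp [h0]
    · by_cases h1 : v 0 = 1
      · simp [h1]
      · simp [h0, h1]

end ColEx

open ColEx in
theorem colex (h : S_rec.{u}) : S_col.{u} := by
  intro N _ p2 top la W hB hW
  classical
  have hinc : GF (inc : N.M → N.M) := inc_GF
  have hp2 := hB.hp2
  have htop := hB.htop
  have hla := hB.hla
  obtain ⟨r3, hr3', hr30, hr3s⟩ := exists_recursion (G := (inc : N.M → N.M)) inc_GF (0 : N.M)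
  have hr3 : GF r3 := hr3'
  have hpdex : ∀ n : N.M, ∃ m, (n = m + p2 (top n)) ∨ (n = 0 ∧ m = 0) := by
    intro n
    by_cases hn : n = 0
    · exact ⟨0, Or.inr ⟨hn, rfl⟩⟩
    · rcases hB.dec n (Helper617.RM.pos_of_ne_zero hn) with h1 | ⟨m, _, _, hm⟩
      · exact ⟨0, Or.inl (by rw [zero_add]; exact h1)⟩
      · exact ⟨m, Or.inl hm⟩
  choose pd hpd using hpdex
  have hnz : ∀ n m : N.M, n = m + p2 (top n) → n ≠ 0 := by
    intro n m hm h0
    have h1 := hB.p2_pos (top n)
    have h2 : 0 < m + p2 (top n) := add_pos_of_nonneg_of_pos (zero_le' m) h1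
    rw [← hm, h0] at h2
    exact lt_irrefl _ h2
  have huniq : ∀ n m, ((n = m + p2 (top n)) ∨ (n = 0 ∧ m = 0)) → m = pd n := by
    intro n m hm
    rcases hm with hm | ⟨hn, hm⟩
    · rcases hpd n with h2 | ⟨h2, h3⟩
      · exact add_cancel' (hm.symm.trans h2)
      · exact absurd h2 (hnz n m hm)
    · rcases hpd n with h2 | ⟨h2, h3⟩
      · exact absurd hn (hnz n (pd n) h2)
      · rw [hm, h3]
  have hpdpos : ∀ n, 0 < n → n = pd n + p2 (top n) := by
    intro n hn
    rcases hpd n with h2 | ⟨h2, h3⟩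
    · exact h2
    · exact absurd h2 hn.ne'
  have hpdGF : GF pd := by
    refine GF.graph (D1.congr (R := fun v => (v 0 = v 1 + p2 (top (v 0))) ∨
      (v 0 = 0 ∧ v 1 = 0)) ?_ ?_)
    · (repeat' (first | assumption | exact DG.var _ | refine DG.add ?_ ?_ |
        refine DG.app (by assumption) ?_ | exact DG.const _ |
        refine D1.and ?_ ?_ | refine D1.or ?_ ?_ | refine D1.not ?_ | refine D1.eq ?_ ?_))
    · intro v
      exact ⟨fun h' => huniq _ _ h', fun h' => by rw [h']; exact hpd _⟩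
  have hpdlt : ∀ n, 0 < n → pd n < n := by
    intro n hn
    have h1 := hpdpos n hn
    calc pd n < pd n + p2 (top n) := lt_add_of_pos_right _ (hB.p2_pos _)
      _ = n := h1.symm
  obtain ⟨Act, hAct⟩ : ∃ Act : N.M → Prop, ∀ n, Act n ↔ ∃ a, a < n + 1 ∧ ∃ b, b < n + 1 ∧
      (top (pd n) = la (pd n) + a ∧ (top n = la (pd n) + b ∧
        ∃ z, z < la (pd n) ∧ (W b z ∧ ¬ W a z))) := ⟨_, fun n => Iff.rfl⟩
  have hActD : D1 (fun v : Ctx N => Act (v 0)) := by
    refine D1.congr (R := fun v => ∃ a, a < v 0 + 1 ∧ ∃ b, b < v 0 + 1 ∧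
      (top (pd (v 0)) = la (pd (v 0)) + a ∧ (top (v 0) = la (pd (v 0)) + b ∧
        ∃ z, z < la (pd (v 0)) ∧ (W b z ∧ ¬ W a z)))) ?_ (fun v => (hAct _).symm)
    (repeat' (first | assumption | exact DG.var _ | refine DG.add ?_ ?_ |
        refine DG.app (by assumption) ?_ | exact DG.const _ |
        refine D1.app2 (R := W) (D1.of hW.hW) ?_ ?_ |
        refine D1.and ?_ ?_ | refine D1.or ?_ ?_ | refine D1.bex ?_ ?_ |
        refine D1.not ?_ | refine D1.eq ?_ ?_))
  obtain ⟨st, hst⟩ : ∃ st : N.M → N.M → N.M, ∀ n s, st n s =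
      if pd n = 0 then r3 (top n) else if Act n then inc s else s := ⟨_, fun _ _ => rfl⟩
  have hstD : D1 (fun v : Ctx N => v 2 = st (v 0) (v 1)) := by
    refine D1.congr (R := fun v => (pd (v 0) = 0 ∧ v 2 = r3 (top (v 0))) ∨
      (¬ pd (v 0) = 0 ∧ ((Act (v 0) ∧ v 2 = inc (v 1)) ∨ (¬ Act (v 0) ∧ v 2 = v 1)))) ?_ ?_
    · (repeat' (first | assumption | exact DG.var _ | refine DG.add ?_ ?_ |
        refine DG.app (by assumption) ?_ | exact DG.const _ |
        refine D1.and ?_ ?_ | refine D1.or ?_ ?_ |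
        refine D1.not ?_ | refine D1.eq ?_ ?_))
    · intro v
      rw [hst]
      by_cases h0 : pd (v 0) = 0
      · simp [h0]
      · by_cases h1 : Act (v 0)
        · simp [h0, h1]
        · simp [h0, h1]
  obtain ⟨Φ, hΦ, hΦ0, hΦs⟩ := h N pd st 0 hpdGF hstD hpdlt
  have hle : ∀ m : N.M, 0 < m → top m < m + 1 := by
    intro m hm
    exact lt1_of_le ((hB.lt_p2 (top m)).le.trans (hB.top_le m hm))
  refine ⟨fun n => tZ (Φ n), ?_, ?_, ?_, ?_⟩
  · intro j
    have hj : D1 (fun v : Ctx N => tZ (Φ (v 0)) = j) := by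
      rcases hj3 j with rfl | rfl | rfl
      · exact D1.congr (R := fun v => Φ (v 0) = 0) (D1.eq (DG.app hΦ (DG.var 0)) (DG.const 0))
          (fun v => (tZ_zero _).symm)
      · exact D1.congr (R := fun v => Φ (v 0) = 1) (D1.eq (DG.app hΦ (DG.var 0)) (DG.const 1))
          (fun v => (tZ_one _).symm)
      · exact D1.congr (R := fun v => ¬ Φ (v 0) = 0 ∧ ¬ Φ (v 0) = 1)
          (D1.and (D1.not (D1.eq (DG.app hΦ (DG.var 0)) (DG.const 0)))
            (D1.not (D1.eq (DG.app hΦ (DG.var 0)) (DG.const 1))))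
          (fun v => (tZ_two _).symm)
    exact d0_of_D1_pred (P := fun x => tZ (Φ x) = j) hj.1 hj.2
  · have hpow : ∀ i, Φ (p2 i) = r3 i := by
      intro i
      have hpos := hB.p2_pos i
      have h0 : pd (p2 i) = 0 := by
        refine (huniq (p2 i) 0 (Or.inl ?_)).symm
        rw [hB.top_p2, zero_add]
      rw [hΦs _ hpos, hst, if_pos h0, hB.top_p2]
    intro i
    change tZ (Φ (p2 (i + 1))) = tZ (Φ (p2 i)) + 1
    rw [hpow, hpow, hr3s, tZ_inc]
  · intro m i a b hm hmi ha hb hev
    have htopn : top (m + p2 i) = i := hB.top_add m i hmi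
    have hpdn : pd (m + p2 i) = m := by
      refine (huniq (m + p2 i) m (Or.inl ?_)).symm
      rw [htopn]
    have hpos : 0 < m + p2 i := add_pos_of_pos_of_nonneg hm (zero_le' _)
    have hact : Act (m + p2 i) := by
      rw [hAct, hpdn, htopn]
      refine ⟨a, ?_, b, ?_, ha, hb, hev⟩
      · have h1 : a ≤ top m := by rw [ha]; exact le_add_of_nonneg_left (zero_le' _)
        have h2 : top m < m + 1 := hle m hm
        have h3 : m + 1 ≤ m + p2 i + 1 := by
          have := hB.p2_pos i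
          exact add_le_add (le_add_of_nonneg_right this.le) le_rfl
        exact (h1.trans_lt h2).trans_le h3
      · have h1 : b ≤ i := by rw [hb]; exact le_add_of_nonneg_left (zero_le' _)
        have h2 : i < p2 i := hB.lt_p2 i
        have h3 : p2 i ≤ m + p2 i := le_add_of_nonneg_left (zero_le' _)
        exact (h1.trans_lt (h2.trans_le h3)).trans (lt1 _)
    change tZ (Φ (m + p2 i)) = tZ (Φ m) + 1
    rw [hΦs _ hpos, hst, hpdn, if_neg hm.ne', if_pos hact, tZ_inc]
  · intro m i a b hm hmi ha hb hev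
    have htopn : top (m + p2 i) = i := hB.top_add m i hmi
    have hpdn : pd (m + p2 i) = m := by
      refine (huniq (m + p2 i) m (Or.inl ?_)).symm
      rw [htopn]
    have hpos : 0 < m + p2 i := add_pos_of_pos_of_nonneg hm (zero_le' _)
    have hact : ¬ Act (m + p2 i) := by
      rw [hAct, hpdn, htopn]
      rintro ⟨a', _, b', _, ha', hb', hev'⟩
      apply hev
      have h1 : a' = a := by
        have : a' + la m = a + la m := by rw [add_comm a', add_comm a, ← ha', ← ha]
        exact add_cancel' this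
      have h2 : b' = b := by
        have : b' + la m = b + la m := by rw [add_comm b', add_comm b, ← hb', ← hb]
        exact add_cancel' this
      rw [h1, h2] at hev'
      exact hev'
    change tZ (Φ (m + p2 i)) = tZ (Φ m)
    rw [hΦs _ hpos, hst, hpdn, if_neg hm.ne', if_neg hact]

end Pool.Agent.H645R2.R
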