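import Mathlib
import Pool.Agent.H645R2.R.Defs

namespace Pool.Agent.H645R2.R

open Pool.Agent.Helper617.RM

universe u

set_option linter.unusedSectionVars false
set_option linter.unusedVariables false

namespace DiffAux

variable {N : L2Structure.{u}} [IsModelRCA0 N]

/-- the statement for one number -/
def Q (la : N.M → N.M) (W : N.M → N.M → Prop) (C : N.M → ZMod 3) (w a : N.M) : Prop :=
  (W a (la w) ∧ (C (w + w) = C w + 1 ∨ C (w + w) = C w + 2)) ∨
    (¬ W a (la w) ∧ C (w + w) = C w + 1)

/-- counterexamples -/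
def Bad (top la : N.M → N.M) (W : N.M → N.M → Prop) (C : N.M → ZMod 3) (w : N.M) : Prop :=
  ∃ a, a < w + 1 ∧ (0 < w ∧ (top w = la w + a ∧ ¬ Q la W C w a))

theorem Q_D1 {la : N.M → N.M} {W : N.M → N.M → Prop} {C : N.M → ZMod 3} (hla : GF la)
    (hW : D0 (fun v => W (v 0) (v 1))) (hC : CG1 C) {g g' : Ctx N → N.M} (hg : DG g)
    (hg' : DG g') : D1 (fun v => Q la W C (g v) (g' v)) := by
  unfold Q
  have h1 : D1 (fun v => W (g' v) (la (g v))) := D1.app2 (R := W) (D1.of hW) hg' (DG.app hla hg)
  have h2 : D1 (fun v => C (g v + g v) = C (g v) + 1) :=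
    CG.eq (CG.app hC (DG.add hg hg)) ((CG.app hC hg).map (fun x => x + 1))
  have h3 : D1 (fun v => C (g v + g v) = C (g v) + 2) :=
    CG.eq (CG.app hC (DG.add hg hg)) ((CG.app hC hg).map (fun x => x + 2))
  exact (h1.and (h2.or h3)).or (h1.not.and h2)

theorem Bad_D1 {top la : N.M → N.M} {W : N.M → N.M → Prop} {C : N.M → ZMod 3} (htop : GF top)
    (hla : GF la) (hW : D0 (fun v => W (v 0) (v 1))) (hC : CG1 C) :
    D1 (fun v : Ctx N => Bad top la W C (v 0)) := by
  have hQ : D1 (fun v : Ctx N => Q la W C (v 1) (v 0)) := Q_D1 hla hW hC (DG.var 1) (DG.var 0)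
  have h0 : D1 (fun v : Ctx N => 0 < v 1) := D1.lt (DG.const 0) (DG.var 1)
  have h1 : D1 (fun v : Ctx N => top (v 1) = la (v 1) + v 0) :=
    D1.eq (DG.app htop (DG.var 1)) (DG.add (DG.app hla (DG.var 1)) (DG.var 0))
  exact D1.bex (t := fun v : Ctx N => v 0 + 1)
    (P := fun v a => 0 < v 0 ∧ (top (v 0) = la (v 0) + a ∧ ¬ Q la W C (v 0) a))
    (DG.add (DG.var 0) (DG.const 1)) (h0.and (h1.and hQ.not))

theorem Ev_succ {W : N.M → N.M → Prop} {p a b : N.M} :
    Ev W (p + 1) a b ↔ Ev W p a b ∨ (W b p ∧ ¬ W a p) := by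
  constructor
  · rintro ⟨z, hz, h⟩
    rcases lt_or_eq_of_le (le_of_lt1 hz) with h1 | h1
    · exact Or.inl ⟨z, h1, h⟩
    · subst h1
      exact Or.inr h
  · rintro (⟨z, hz, h⟩ | h)
    · exact ⟨z, lt_trans hz (lt1 p), h⟩
    · exact ⟨p, lt1 p, h⟩

end DiffAux

theorem diff : S_diff.{u} := by
  intro N _ p2 top la W C hB hE hC
  have key : ∀ w, ¬ DiffAux.Bad top la W C w := by
    intro w hw
    obtain ⟨w, -, ⟨a, ha, hw0, hwa, hQ⟩, hmin⟩ :=
      lnp_S1 (DiffAux.Bad_D1 hB.htop hB.hla hE.hW hC.hC).1 w hw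
    apply hQ
    have IH : ∀ m, m < w → 0 < m → ∀ a, top m = la m + a → DiffAux.Q la W C m a := by
      intro m hm hm0 a' ha'
      by_contra hcon
      refine hmin m hm ⟨a', ?_, hm0, ha', hcon⟩
      have h1 : top m < p2 (top m) := hB.lt_p2 _
      have h2 := hB.top_le m hm0
      have h3 : a' ≤ top m := by
        rw [ha']
        exact le_add_of_nonneg_left (zero_le' _)
      exact lt1_of_le (h3.trans (h1.le.trans h2))
    rcases hB.dec w hw0 with h | ⟨m, hm0, hm, h⟩
    · -- a power of two
      have hla : la w = top w := by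
        conv_lhs => rw [h]
        exact hB.la_p2 _
      have hdbl : C (w + w) = C w + 1 := by
        have h1 : w + w = p2 (top w + 1) := by
          rw [hB.p2_succ, ← h]
        rw [h1, hC.pow, ← h]
      by_cases hW : W a (la w)
      · exact Or.inl ⟨hW, Or.inl hdbl⟩
      · exact Or.inr ⟨hW, hdbl⟩
    · obtain ⟨i, hi⟩ : ∃ i, i = top w := ⟨_, rfl⟩
      rw [← hi] at hm h hwa
      have hp0 : 0 < p2 i := hB.p2_pos i
      have hla : la w = la m := by
        have h1 := hB.la_add m i 1 hm0 hm
        rw [mul_one, ← h] at h1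
        exact h1
      rw [hla] at hwa
      obtain ⟨a', ha'⟩ := exists_sub (hB.la_le_top m hm0)
      have hmw : m < w := by
        rw [h]
        exact lt_add_of_pos_right m hp0
      have hIH := IH m hmw hm0 a' ha'
      have h2w : w + w = (m + m) + p2 (i + 1) := by
        rw [h, hB.p2_succ]
        exact add_add_add_comm _ _ _ _
      have h2m : m + m < p2 (i + 1) := by
        rw [hB.p2_succ]
        exact add_lt_add hm hm
      have h2m0 : 0 < m + m := add_pos hm0 hm0
      have hla2 : la (m + m) = la m + 1 := hB.la_dbl m hm0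
      have htop2 : top (m + m) = la (m + m) + a' := by
        rw [hB.top_dbl m hm0, hla2, ha']
        ring
      have hi2 : i + 1 = la (m + m) + a := by
        rw [hla2, hwa]
        ring
      have haa : a' ≤ a := by
        have h1 : top m ≤ top w := hB.top_mono m w hm0 hmw.le
        rw [← hi, ha', hwa] at h1
        exact le_of_add_le_add_left h1
      have c1 : Ev W (la m) a' a → C w = C m + 1 := fun hev => by
        rw [h]
        exact hC.add1 m i a' a hm0 hm ha' hwa hev
      have c0 : ¬ Ev W (la m) a' a → C w = C m := fun hev => by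
        rw [h]
        exact hC.add0 m i a' a hm0 hm ha' hwa hev
      have d1 : Ev W (la m + 1) a' a → C (w + w) = C (m + m) + 1 := fun hev => by
        rw [h2w]
        exact hC.add1 (m + m) (i + 1) a' a h2m0 h2m htop2 hi2 (by rw [hla2]; exact hev)
      have d0 : ¬ Ev W (la m + 1) a' a → C (w + w) = C (m + m) := fun hev => by
        rw [h2w]
        exact hC.add0 (m + m) (i + 1) a' a h2m0 h2m htop2 hi2 (by rw [hla2]; exact hev)
      unfold DiffAux.Q at hIH ⊢
      rw [hla]
      by_cases hWa' : W a' (la m)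
      · have hWa : W a (la m) := hE.mono _ _ _ haa hWa'
        have hE' : Ev W (la m + 1) a' a ↔ Ev W (la m) a' a := by
          rw [DiffAux.Ev_succ]
          tauto
        have h5 : C (m + m) = C m + 1 ∨ C (m + m) = C m + 2 := by tauto
        refine Or.inl ⟨hWa, ?_⟩
        by_cases hev : Ev W (la m) a' a
        · rw [d1 (hE'.2 hev), c1 hev]
          rcases h5 with h5 | h5
          · left; rw [h5]
          · right; rw [h5]; ring
        · rw [d0 (fun h => hev (hE'.1 h)), c0 hev]
          exact h5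
      · have h5 : C (m + m) = C m + 1 := by tauto
        by_cases hWa : W a (la m)
        · have hev1 : Ev W (la m + 1) a' a := DiffAux.Ev_succ.2 (Or.inr ⟨hWa, hWa'⟩)
          refine Or.inl ⟨hWa, ?_⟩
          rw [d1 hev1, h5]
          by_cases hev : Ev W (la m) a' a
          · left; rw [c1 hev]
          · right; rw [c0 hev]; ring
        · have hE' : Ev W (la m + 1) a' a ↔ Ev W (la m) a' a := by
            rw [DiffAux.Ev_succ]
            tauto
          refine Or.inr ⟨hWa, ?_⟩
          by_cases hev : Ev W (la m) a' a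
          · rw [d1 (hE'.2 hev), c1 hev, h5]
          · rw [d0 (fun h => hev (hE'.1 h)), c0 hev, h5]
  intro w a hw hwa
  by_contra hcon
  refine key w ⟨a, ?_, hw, hwa, hcon⟩
  have h1 : top w < p2 (top w) := hB.lt_p2 _
  have h2 := hB.top_le w hw
  have h3 : a ≤ top w := by
    rw [hwa]
    exact le_add_of_nonneg_left (zero_le' _)
  exact lt1_of_le (h3.trans (h1.le.trans h2))

end Pool.Agent.H645R2.R
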