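import Mathlib
import Pool.Agent.H645R2.R.Defs

namespace Pool.Agent.H645R2.R

open Pool.Agent.Helper617.RM

universe u

set_option linter.unusedSectionVars false
set_option linter.unusedVariables false

theorem far (hn : S_ne.{u}) (hb : S_bd.{u}) : S_far.{u} := by
  intro N _ p2 top la W C hB hE hS X hX b
  by_contra hcon
  have hcon' : ∀ x ∈ X, 0 < x → la x ≤ b := fun x hx h0 => by
    by_contra h
    exact hcon ⟨x, hx, h0, not_le.1 h⟩
  obtain ⟨M, _, hM⟩ := hb N W hE (b + 1) 0
  obtain ⟨i, hi⟩ : ∃ i, i = b + M + 1 := ⟨_, rfl⟩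
  have hp2 := hB.hp2
  have hXm := hX.mem
  have hQ : D0 (fun v : Ctx N =>
      v 1 ∈ X ∧ p2 i < v 1 ∧ ∃ q, q < v 1 + 1 ∧ v 1 = v 0 + p2 (i + 1) * q) := by
    have : D1 (fun v : Ctx N =>
        v 1 ∈ X ∧ p2 i < v 1 ∧ ∃ q, q < v 1 + 1 ∧ v 1 = v 0 + p2 (i + 1) * q) := by
      refine D1.and (D1.mem (DG.var 1) hXm) (D1.and (D1.lt (DG.const _) (DG.var 1)) ?_)
      refine D1.bex (P := fun v q => v 1 = v 0 + p2 (i + 1) * q)
        (DG.add (DG.var 1) (DG.const _)) ?_
      exact D1.eq (DG.var 2) (DG.add (DG.var 1) (DG.mul (DG.const _) (DG.var 0)))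
    exact d0_of_D1
      (R := fun r x => x ∈ X ∧ p2 i < x ∧ ∃ q, q < x + 1 ∧ x = r + p2 (i + 1) * q)
      this.1 this.2
  obtain ⟨B, hBd⟩ := strong_bounding
    (Q := fun r x => x ∈ X ∧ p2 i < x ∧ ∃ q, q < x + 1 ∧ x = r + p2 (i + 1) * q)
    hQ (p2 (i + 1))
  obtain ⟨y, hyX, hy⟩ := hX.unb (max B (p2 i))
  have hyB : B < y := (le_max_left _ _).trans_lt hy
  have hyp : p2 i < y := (le_max_right _ _).trans_lt hy
  obtain ⟨r, qy, hr, hyr⟩ := hB.modp y (i + 1)
  have hqy : qy < y + 1 := by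
    apply lt1_of_le
    have h1 : 1 ≤ p2 (i + 1) := by
      have := succ_le' (hB.p2_pos (i + 1))
      rwa [zero_add] at this
    calc qy = 1 * qy := (one_mul _).symm
      _ ≤ p2 (i + 1) * qy := by gcongr
      _ ≤ r + p2 (i + 1) * qy := le_add_self
      _ = y := hyr.symm
  obtain ⟨x, hxB, hxX, hxp, qx, _, hxr⟩ := hBd r hr ⟨y, hyX, hyp, qy, hqy, hyr⟩
  have hxy : x < y := hxB.trans hyB
  obtain ⟨w, e, hw, hre⟩ := hB.modp r i
  have hp21 : p2 (i + 1) = p2 i + p2 i := hB.p2_succ i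
  have hx1 : x = w + p2 i * (e + (qx + qx)) := by rw [hxr, hre, hp21]; ring
  have hy1 : y = w + p2 i * (e + (qy + qy)) := by rw [hyr, hre, hp21]; ring
  have hxy1 : x + y = (w + w) + p2 (i + 1) * (e + qx + qy) := by
    rw [hx1, hy1, hp21]; ring
  have hpi := hB.p2_pos i
  have hx0 : 0 < x := hpi.trans hxp
  have hex : 0 < e + (qx + qx) := by
    rcases (zero_le' (e + (qx + qx))).lt_or_eq with h | h
    · exact h
    · exfalso
      rw [← h, mul_zero, add_zero] at hx1
      rw [hx1] at hxp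
      exact lt_asymm hxp hw
  have hw0 : 0 < w := by
    rcases (zero_le' w).lt_or_eq with h | h
    · exact h
    · exfalso
      rw [← h, zero_add] at hx1
      have h1 := hB.le_la i _ hex
      rw [← hx1] at h1
      have h2 := hcon' x hxX hx0
      have h3 : b + M + 1 ≤ b := by
        rw [← hi]
        exact h1.trans h2
      exact absurd h3 (not_le.2 (lt1_of_le le_self_add))
  have hexy : 0 < e + qx + qy := by
    rcases (zero_le' e).lt_or_eq with he | he
    · exact he.trans_le (by rw [add_assoc]; exact le_self_add)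
    · rcases (zero_le' qx).lt_or_eq with hq | hq
      · exact hq.trans_le (by rw [← he, zero_add]; exact le_self_add)
      · exfalso
        rw [← he, ← hq] at hex
        simp at hex
  have hla : la x = la w := by
    rw [hx1]
    exact hB.la_add w i _ hw0 hw
  have hlb : la w ≤ b := by
    rw [← hla]
    exact hcon' x hxX hx0
  have hBd' : Bd W (la w + 1) M := fun z hz s hs =>
    hM z (hz.trans_le (by gcongr)) s hs
  have hle : la w + M ≤ i := by
    rw [hi]
    calc la w + M ≤ b + M := by gcongr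
      _ ≤ b + M + 1 := le_self_add
  have hne := hn N p2 top la W C hB hE hS w i M hBd' hw0 hw hle _ _ hex hexy
  rw [← hx1, ← hxy1] at hne
  exact hne (hX.two x hxX y hyX hxy).symm

end Pool.Agent.H645R2.R
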