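import Mathlib
import Pool.Agent.H645R2.R.Defs

namespace Pool.Agent.H645R2.R

open Pool.Agent.Helper617.RM

universe u

set_option linter.unusedSectionVars false
set_option linter.unusedVariables false

theorem gap (h : S_stab.{u}) : S_gap.{u} := by
  intro N _ p2 top la W C hB hE hC P M hP w i a hw hwi hla hi ha q hq
  obtain ⟨e, r, hqe⟩ := hB.low q hq
  obtain ⟨c, hc⟩ := exists_sub hi
  have hpe : (1 : N.M) ≤ p2 e := by
    have := succ_le' (hB.p2_pos e)
    simpa using this
  have hle : p2 i ≤ p2 (i + e) := by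
    rw [hB.p2_add]
    calc p2 i = p2 i * 1 := by ring
      _ ≤ p2 i * p2 e := mul_le_mul' le_rfl hpe
  have hwie : w < p2 (i + e) := lt_of_lt_of_le hwi hle
  have hsum : w + p2 i * q = (w + p2 (i + e)) + p2 (i + e + 1) * r := by
    rw [hqe, add_assoc i e 1, hB.p2_add i e, hB.p2_add i (e + 1)]
    ring
  have hla' : la (w + p2 (i + e)) = la w := by
    have := hB.la_add w (i + e) 1 hw hwie
    simpa using this
  have htop' : top (w + p2 (i + e)) = i + e := hB.top_add w (i + e) hwie
  have hlt : w + p2 (i + e) < p2 (i + e + 1) := by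
    rw [hB.p2_succ]
    exact add_lt_add_left hwie _
  have hpos : 0 < w + p2 (i + e) := lt_of_lt_of_le hw (le_add_of_nonneg_right zero_le)
  have hstab : C ((w + p2 (i + e)) + p2 (i + e + 1) * r) = C (w + p2 (i + e)) := by
    refine h N p2 top la W C hB hE hC P M hP _ _ hpos hlt ?_ ?_ r
    · rw [hla']; exact hla
    · rw [hla', htop']
      exact le_trans hi (le_add_of_nonneg_right zero_le)
  have hb : i + e = la w + (M + c + e) := by
    rw [hc]; ring
  have hev : Ev W (la w) a (M + c + e) ↔ Ev W (la w) a M := by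
    constructor
    · rintro ⟨z, hz, h1, h2⟩
      exact ⟨z, hz, hP z (lt_of_lt_of_le hz hla) _ h1, h2⟩
    · rintro ⟨z, hz, h1, h2⟩
      refine ⟨z, hz, hE.mono M _ z ?_ h1, h2⟩
      rw [add_assoc]
      exact le_add_of_nonneg_right zero_le
  rw [hsum, hstab]
  constructor
  · intro hv
    exact hC.add1 w (i + e) a (M + c + e) hw hwie ha hb (hev.2 hv)
  · intro hv
    exact hC.add0 w (i + e) a (M + c + e) hw hwie ha hb (fun hx => hv (hev.1 hx))

end Pool.Agent.H645R2.R
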