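import Mathlib
import Pool.Agent.H645R2.R.Defs

namespace Pool.Agent.H645R2.R

open Pool.Agent.Helper617.RM

universe u

set_option linter.unusedSectionVars false
set_option linter.unusedVariables false

namespace Ne

theorem z3 (x : ZMod 3) : x + 1 ≠ x + 1 + 1 ∧ x + 1 ≠ x + 2 + 1 ∧ x ≠ x + 1 ∧ x ≠ x + 2 ∧
    x ≠ x + 1 + 1 := by
  revert x
  decide

variable {N : L2Structure.{u}} [IsModelRCA0 N]

theorem ev_succ (W : N.M → N.M → Prop) (p a b : N.M) :
    Ev W (p + 1) a b ↔ Ev W p a b ∨ (W b p ∧ ¬ W a p) := by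
  constructor
  · rintro ⟨z, hz, h⟩
    rcases lt_or_eq_of_le (le_of_lt1 hz) with h1 | h1
    · exact Or.inl ⟨z, h1, h⟩
    · rw [h1] at h
      exact Or.inr h
  · rintro (⟨z, hz, h⟩ | h)
    · exact ⟨z, lt1_of_le hz.le, h⟩
    · exact ⟨p, lt1_of_le le_rfl, h⟩

end Ne

theorem ne (hg : S_gap.{u}) (hd : S_diff.{u}) : S_ne.{u} := by
  intro N _ p2 top la W C hF hE hS w i M hBd hw hwi hM q q' hq hq'
  obtain ⟨a, ha⟩ := exists_sub (hF.la_le_top w hw)
  have h1 := hg N p2 top la W C hF hE hS (la w + 1) M hBd w i a hw hwi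
    (le_of_lt (lt1_of_le le_rfl)) hM ha q hq
  have e1 : 0 < w + w := add_pos hw hw
  have e2 : w + w < p2 (i + 1) := by
    rw [hF.p2_succ]
    exact add_lt_add hwi hwi
  have e3 : la (w + w) = la w + 1 := hF.la_dbl w hw
  have e4 : la (w + w) + M ≤ i + 1 := by
    rw [e3, add_right_comm]
    exact add_le_add_left hM 1
  have e5 : top (w + w) = la (w + w) + a := by
    rw [hF.top_dbl w hw, ha, e3, add_right_comm]
  have h2 := hg N p2 top la W C hF hE hS (la w + 1) M hBd (w + w) (i + 1) a e1 e2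
    (le_of_eq e3) e4 e5 q' hq'
  rw [e3, Ne.ev_succ] at h2
  have h3 := hd N p2 top la W C hF hE hS w a hw ha
  obtain ⟨z1, z2, z3, z4, z5⟩ := Ne.z3 (C w)
  by_cases hp : Ev W (la w) a M
  · rw [h1.1 hp, h2.1 (Or.inl hp)]
    rcases h3 with ⟨-, h3 | h3⟩ | ⟨-, h3⟩
    · rw [h3]; exact z1
    · rw [h3]; exact z2
    · rw [h3]; exact z1
  · rw [h1.2 hp]
    rcases h3 with ⟨h4, h3⟩ | ⟨h4, h3⟩
    · rw [h2.2 (by rintro (h5 | ⟨-, h5⟩); exacts [hp h5, h5 h4])]
      rcases h3 with h3 | h3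
      · rw [h3]; exact z3
      · rw [h3]; exact z4
    · by_cases h5 : W M (la w)
      · rw [h2.1 (Or.inr ⟨h5, h4⟩), h3]
        exact z5
      · rw [h2.2 (by rintro (h6 | ⟨h6, -⟩); exacts [hp h6, h5 h6]), h3]
        exact z3

end Pool.Agent.H645R2.R
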