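import Mathlib
import Pool.Agent.H645R2.R.Defs

namespace Pool.Agent.H645R2.R

open Pool.Agent.Helper617.RM

universe u

set_option linter.unusedSectionVars false
set_option linter.unusedVariables false

namespace Recu

variable {N : L2Structure.{u}} [IsModelRCA0 N]

/-- `u` codes a set of pairs closed backwards under the recursion -/
def Good (pd : N.M → N.M) (st : N.M → N.M → N.M) (a u : N.M) : Prop :=
  ∀ m, m < u → ∀ w, w < u → MemC (pr m w) u →
    (m = 0 → w = a) ∧ (0 < m → ∃ w', w' < u ∧ (MemC (pr (pd m) w') u ∧ w = st m w'))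

theorem memC_bd {m w u : N.M} (h : MemC (pr m w) u) : m < u ∧ w < u :=
  ⟨lt_of_le_of_lt (fst_le_pr m w) h.lt, lt_of_le_of_lt (snd_le_pr m w) h.lt⟩

theorem good_D1 {pd : N.M → N.M} {st : N.M → N.M → N.M} (a : N.M) (hpd : GF pd)
    (hst : D1 (fun v => v 2 = st (v 0) (v 1))) : D1 (fun v => Good pd st a (v 0)) := by
  have hst' : ∀ {g g' g'' : Ctx N → N.M}, DG g → DG g' → DG g'' →
      D1 (fun v => g'' v = st (g v) (g' v)) := fun h1 h2 h3 =>
    D1.app3 (R := fun x y z => z = st x y) hst h1 h2 h3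
  refine D1.ball (DG.var 0) (D1.ball (DG.var 1) (D1.imp ?_ (D1.and (D1.imp ?_ ?_)
    (D1.imp ?_ (D1.bex (DG.var 2) (D1.and ?_ ?_))))))
  · exact D1.MemC (DG.pr (DG.var 1) (DG.var 0)) (DG.var 2)
  · exact D1.eq (DG.var 1) (DG.const 0)
  · exact D1.eq (DG.var 0) (DG.const a)
  · exact D1.lt (DG.const 0) (DG.var 1)
  · exact D1.MemC (DG.pr (DG.app hpd (DG.var 2)) (DG.var 0)) (DG.var 3)
  · exact hst' (DG.var 2) (DG.var 0) (DG.var 1)

/-- the value at `n` is `y` -/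
def Gam (pd : N.M → N.M) (st : N.M → N.M → N.M) (a n y : N.M) : Prop :=
  ∃ u, Good pd st a u ∧ MemC (pr n y) u

theorem gam_S1 {pd : N.M → N.M} {st : N.M → N.M → N.M} (a : N.M) (hpd : GF pd)
    (hst : D1 (fun v => v 2 = st (v 0) (v 1))) : S1 (fun v => Gam pd st a (v 0) (v 1)) := by
  have hg := good_D1 a hpd hst
  refine S1.ex (S1.and ?_ ?_)
  · exact (D1.app1 (R := fun x => Good pd st a x) hg (DG.var 0)).1
  · exact (D1.MemC (DG.pr (DG.var 1) (DG.var 2)) (DG.var 0)).1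

theorem good_unique {pd : N.M → N.M} {st : N.M → N.M → N.M} {a u u' : N.M}
    (hlt : ∀ n, 0 < n → pd n < n) (h : Good pd st a u) (h' : Good pd st a u') (b : N.M) :
    ∀ n, n < b → ∀ y, y < u → ∀ y', y' < u' → MemC (pr n y) u → MemC (pr n y') u' → y = y' := by
  refine ind_S1 (P := fun b => ∀ n, n < b → ∀ y, y < u → ∀ y', y' < u' → MemC (pr n y) u →
    MemC (pr n y') u' → y = y') ?_ ?_ ?_ b
  · have hd : D1 (fun v : Ctx N => ∀ n, n < v 0 → ∀ y, y < u → ∀ y', y' < u' →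
        MemC (pr n y) u → MemC (pr n y') u' → y = y') := by
      refine D1.ball (DG.var 0) (D1.ball (DG.const u) (D1.ball (DG.const u') (D1.imp ?_
        (D1.imp ?_ (D1.eq (DG.var 1) (DG.var 0))))))
      · exact D1.MemC (DG.pr (DG.var 2) (DG.var 1)) (DG.const u)
      · exact D1.MemC (DG.pr (DG.var 2) (DG.var 0)) (DG.const u')
    exact hd.1
  · intro n hn
    exact absurd hn (not_lt_of_ge (zero_le' n))
  · intro b ih n hn y hy y' hy' h1 h2
    obtain ⟨g1, g2⟩ := h n (memC_bd h1).1 y hy h1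
    obtain ⟨g1', g2'⟩ := h' n (memC_bd h2).1 y' hy' h2
    by_cases hn0 : n = 0
    · rw [g1 hn0, g1' hn0]
    · have hpos := Pool.Agent.Helper617.RM.pos_of_ne_zero hn0
      obtain ⟨w, hw, hw1, hw2⟩ := g2 hpos
      obtain ⟨w', hw', hw1', hw2'⟩ := g2' hpos
      have hb : pd n < b := lt_of_lt_of_le (hlt n hpos) (le_of_lt1 hn)
      rw [hw2, hw2', ih (pd n) hb w hw w' hw' hw1 hw1']

theorem gam_unique {pd : N.M → N.M} {st : N.M → N.M → N.M} {a n y y' : N.M}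
    (hlt : ∀ n, 0 < n → pd n < n) (h : Gam pd st a n y) (h' : Gam pd st a n y') : y = y' := by
  obtain ⟨u, h1, h2⟩ := h
  obtain ⟨u', h1', h2'⟩ := h'
  exact good_unique hlt h1 h1' (n + 1) n (lt1 n) y (memC_bd h2).2 y' (memC_bd h2').2 h2 h2'

theorem gam_zero {pd : N.M → N.M} {st : N.M → N.M → N.M} (a : N.M) : Gam pd st a 0 a := by
  obtain ⟨u, -, hu⟩ := exists_isC (P := fun r => r = pr 0 a)
    (D0.eq (Tm.var 0) (Tm.const (pr 0 a))) (b := pr 0 a + 1)
    (fun r hr => by rw [hr]; exact lt1 _)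
  refine ⟨u, fun m _ w _ hmw => ?_, (hu _).2 rfl⟩
  obtain ⟨rfl, rfl⟩ := pr_inj ((hu _).1 hmw)
  exact ⟨fun _ => rfl, fun h0 => absurd h0 (lt_irrefl _)⟩

theorem gam_succ {pd : N.M → N.M} {st : N.M → N.M → N.M} {a n y : N.M}
    (hn : 0 < n) (h : Gam pd st a (pd n) y) : Gam pd st a n (st n y) := by
  obtain ⟨u, hg, hm⟩ := h
  obtain ⟨u', -, hu'⟩ := exists_isC (P := fun r => MemC r u ∨ r = pr n (st n y))
    (D0.or (MemC_D0 (Tm.var 0) (Tm.const u)) (D0.eq (Tm.var 0) (Tm.const (pr n (st n y)))))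
    (b := u + (pr n (st n y) + 1)) (by
      rintro r (hr | hr)
      · exact lt_of_lt_of_le hr.lt (le_add_of_nonneg_right (zero_le' _))
      · rw [hr]
        exact lt_of_lt_of_le (lt1 _) (le_add_of_nonneg_left (zero_le' _)))
  have hsub : ∀ r, MemC r u → MemC r u' := fun r hr => (hu' r).2 (Or.inl hr)
  refine ⟨u', fun m _ w _ hmw => ?_, (hu' _).2 (Or.inr rfl)⟩
  rcases (hu' _).1 hmw with hmw' | he
  · obtain ⟨g1, g2⟩ := hg m (memC_bd hmw').1 w (memC_bd hmw').2 hmw'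
    refine ⟨g1, fun h0 => ?_⟩
    obtain ⟨w', _, h1, h2⟩ := g2 h0
    exact ⟨w', (memC_bd (hsub _ h1)).2, hsub _ h1, h2⟩
  · obtain ⟨rfl, rfl⟩ := pr_inj he
    exact ⟨fun h0 => absurd h0 hn.ne', fun _ => ⟨y, (memC_bd (hsub _ hm)).2, hsub _ hm, rfl⟩⟩

theorem gam_exists {pd : N.M → N.M} {st : N.M → N.M → N.M} (a : N.M) (hpd : GF pd)
    (hst : D1 (fun v => v 2 = st (v 0) (v 1))) (hlt : ∀ n, 0 < n → pd n < n) (n : N.M) :
    ∃ y, Gam pd st a n y := by
  have key : ∀ b : N.M, ∀ n, n < b → ∃ y, Gam pd st a n y := by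
    intro b
    refine ind_S1 (P := fun b => ∀ n, n < b → ∃ y, Gam pd st a n y) ?_ ?_ ?_ b
    · refine S1.ball (P := fun v x => ∃ y, Gam pd st a x y) (Tm.var 0) ?_
      refine S1.ex ?_
      exact S1.rel (gam_S1 a hpd hst) (Tm.var 1) (Tm.var 0)
    · intro n hn
      exact absurd hn (not_lt_of_ge (zero_le' n))
    · intro b ih n hn
      by_cases hn0 : n = 0
      · rw [hn0]; exact ⟨a, gam_zero a⟩
      · have hpos := Pool.Agent.Helper617.RM.pos_of_ne_zero hn0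
        obtain ⟨y, hy⟩ := ih (pd n) (lt_of_lt_of_le (hlt n hpos) (le_of_lt1 hn))
        exact ⟨_, gam_succ hpos hy⟩
  exact key (n + 1) n (lt1 n)

end Recu

open Recu in
theorem recur : S_rec.{u} := by
  intro N _ pd st a hpd hst hlt
  choose Φ hΦ using gam_exists a hpd hst hlt
  have key : ∀ n y, y = Φ n ↔ Gam pd st a n y := fun n y =>
    ⟨fun h => h ▸ hΦ n, fun h => gam_unique hlt h (hΦ n)⟩
  refine ⟨Φ, GF.graph ⟨?_, ?_⟩, ((key _ _).2 (gam_zero a)).symm, fun n hn =>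
    ((key _ _).2 (gam_succ hn (hΦ (pd n)))).symm⟩
  · exact (gam_S1 a hpd hst).congr fun v => (key _ _).symm
  · refine S1.congr (R := fun v => ∃ z, Gam pd st a (v 0) z ∧ ¬ v 1 = z) ?_ fun v => ?_
    · exact S1.ex (S1.and (S1.rel (gam_S1 a hpd hst) (Tm.var 1) (Tm.var 0))
        (D0.eq (Tm.var 2) (Tm.var 0)).not.S1)
    · constructor
      · rintro ⟨z, hz, hne⟩ h
        exact hne (h.trans ((key _ _).2 hz).symm)
      · intro h
        exact ⟨Φ (v 0), hΦ _, h⟩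

end Pool.Agent.H645R2.R
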