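import Mathlib
import Pool.Agent.H645R2.R.Defs

/-! The final step: `Σ⁰₁` comprehension from homogeneous sets. -/

namespace Pool.Agent.H645R2.R

open Pool.Agent.Helper617.RM

universe u

set_option linter.unusedSectionVars false
set_option linter.unusedVariables false

theorem rev_of (hb : S_bin.{u}) (hp : S_binp.{u}) (hf : S_binf.{u}) (hc : S_col.{u})
    (hfar : S_far.{u}) (hset : S_settled.{u}) : S_rev.{u} := by
  intro N _ H
  constructor
  intro P hP
  obtain ⟨p2, top, la, hB0⟩ := hb N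
  have hB : BinF p2 top la := hf N p2 top la (hp N p2 top la hB0)
  obtain ⟨Q, hQ, hPQ⟩ := hP
  have hP' : S1 (fun v => P (v 0)) := ⟨Q, hQ, hPQ⟩
  let W : N.M → N.M → Prop := fun s z => ∃ s', s' < s + 1 ∧ Q (cons z (fun _ => (0 : N.M))) s'
  have hPW : ∀ z, P z ↔ ∃ s, W s z := by
    intro z
    have h1 := hPQ (cons z (fun _ => (0 : N.M)))
    constructor
    · intro h
      obtain ⟨s, hs⟩ := h1.1 h
      exact ⟨s, s, lt1 s, hs⟩
    · rintro ⟨s, s', _, hs'⟩
      exact h1.2 ⟨s', hs'⟩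
  have hW : Enum W := by
    constructor
    · refine D0.bex ((Tm.var 0).add Tm.one) ?_
      exact D0.comp (R := fun w => Q (tail w) (w 0)) hQ
        (g := fun w => cons (w 0) (cons (w 2) (fun _ => (0 : N.M))))
        (CM.cons (Tm.var 0) (CM.cons (Tm.var 2) (fun _ => Tm.zero)))
    · rintro s t z hst ⟨s', h1, h2⟩
      exact ⟨s', lt_of_lt_of_le h1 (by gcongr), h2⟩
  obtain ⟨C, hC⟩ := hc N p2 top la W hB hW
  obtain ⟨X, hX⟩ := H C hC.hC
  refine comp_D1 hP' ?_
  have hXm := hX.mem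
  have htop : GF top := hB.htop
  have hla : GF la := hB.hla
  have hWD : ∀ {s t : Ctx N → N.M}, DG s → DG t → D1 (fun v => W (s v) (t v)) :=
    fun hs ht => D1.app2 (R := W) (D1.of hW.hW) hs ht
  refine S1.congr (R := fun v => ∃ h, ∃ a, (h ∈ X ∧ (0 < h ∧ (v 0 < la h ∧
    (top h = la h + a ∧ ¬ W a (v 0)))))) ?_ fun v => ?_
  · refine S1.ex (S1.ex ?_)
    refine (D1.and (D1.mem (DG.var 1) hXm) (D1.and (D1.lt (DG.const 0) (DG.var 1))
      (D1.and (D1.lt (DG.var 2) (DG.app hla (DG.var 1))) (D1.and (D1.eq (DG.app htop (DG.var 1))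
      (DG.add (DG.app hla (DG.var 1)) (DG.var 0))) (hWD (DG.var 0) (DG.var 2)).not)))).1
  · constructor
    · rintro ⟨h, a, h1, h2, h3, h4, h5⟩ hPv
      obtain ⟨s, hs⟩ := (hPW _).1 hPv
      exact h5 (hset N p2 top la W C hB hW hC X hX h h1 h2 a h4 _ h3 s hs)
    · intro hPv
      obtain ⟨h, h1, h2, h3⟩ := hfar N p2 top la W C hB hW hC X hX (v 0)
      obtain ⟨a, ha⟩ := exists_sub (hB.la_le_top h h2)
      exact ⟨h, a, h1, h2, h3, ha, fun h5 => hPv ((hPW _).2 ⟨a, h5⟩)⟩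

end Pool.Agent.H645R2.R
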