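import Mathlib
import Pool.Agent.H645R2.R.Defs
namespace Pool.Agent.H645R2.R
open Pool.Agent.Helper617.RM
universe u
set_option linter.unusedSectionVars false
set_option linter.unusedVariables false

theorem settled (hf : S_far.{u}) (hg : S_gap.{u}) (hb : S_bd.{u}) : S_settled.{u} := by
  intro N _ p2 top la W C hF hW hC X hX h hhX hpos a hta z hz s hs
  by_contra hna
  obtain ⟨M, hsM, hM⟩ := hb N W hW (la h) s
  obtain ⟨l, hlX, hlpos, hl⟩ := hf N p2 top la W C hF hW hC X hX (la h + M + top h + h)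
  have hWM : W M z := hM z hz s hs
  have e0 : la h + M + top h + h + 1 ≤ la l := add_one_le_iff'.2 hl
  have z1 : (0 : N.M) ≤ la h := zero_le' _
  have z2 : (0 : N.M) ≤ M := zero_le' _
  have z3 : (0 : N.M) ≤ top h := zero_le' _
  have z4 : (0 : N.M) ≤ h := zero_le' _
  have e1 : top h + 1 ≤ la l := by grind
  have e2 : la h + M ≤ la l := by grind
  have e3 : h < p2 (la l) := by
    refine lt_of_lt_of_le (hF.lt_top h) ?_
    rcases lt_or_eq_of_le e1 with e | e
    · exact (hF.p2_lt _ _ e).le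
    · rw [e]
  obtain ⟨q, hq⟩ := hF.la_eq l hlpos
  have hq1 : (1 : N.M) ≤ q + q + 1 := by
    have : (0 : N.M) ≤ q := zero_le' _
    grind
  have hq0 : (0 : N.M) < q + q + 1 := lt_of_lt_of_le zero_lt_one hq1
  have hle : p2 (la l) ≤ l := by
    calc p2 (la l) = p2 (la l) * 1 := (mul_one _).symm
      _ ≤ p2 (la l) * (q + q + 1) := mul_le_mul_of_nonneg_left hq1 (zero_le' _)
      _ = l := hq.symm
  have hlt : h < l := lt_of_lt_of_le e3 hle
  have h1 := (hg N p2 top la W C hF hW hC (la h) M hM h (la l) a hpos e3 le_rfl e2 hta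
    (q + q + 1) hq0).1 ⟨z, hz, hWM, hna⟩
  rw [← hq, hX.two h hhX l hlX hlt] at h1
  exact (by decide : ∀ x : ZMod 3, x ≠ x + 1) _ h1

end Pool.Agent.H645R2.R
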