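import Mathlib
import Pool.Agent.H645R2.R.Defs

namespace Pool.Agent.H645R2.R

open Pool.Agent.Helper617.RM

universe u

set_option linter.unusedSectionVars false
set_option linter.unusedVariables false

theorem stab : S_stab.{u} := by
  intro N _ p2 top la W C hB hE hS P M hbd m i hm hmi hla htop
  have key : ∀ b : N.M, ∀ q, q < b → C (m + p2 i * q) = C m := by
    intro b
    refine ind_S1 (P := fun b => ∀ q, q < b → C (m + p2 i * q) = C m) ?_ ?_ ?_ b
    · have hC := hS.hC
      have : D1 (fun v : Ctx N => ∀ q, q < v 0 → C (m + p2 i * q) = C m) := by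
        refine D1.ball (P := fun v q => C (m + p2 i * q) = C m) (DG.var 0) ?_
        exact CG.eq (CG.app hC (DG.add (DG.const _) (DG.mul (DG.const _) (DG.var 0))))
          (CG.const _)
      exact this.1
    · intro q hq
      exact absurd hq (not_lt.2 (zero_le' q))
    · intro b ih q hq
      rcases (le_of_lt1 hq).lt_or_eq with h | rfl
      · exact ih q h
      · rcases (zero_le' q).lt_or_eq with hq0 | hq0
        · obtain ⟨q', hq', hqe⟩ : ∃ q', q' < p2 (top q) ∧ q = q' + p2 (top q) := by
            rcases hB.dec q hq0 with h | ⟨q', _, h1, h2⟩
            · exact ⟨0, hB.p2_pos _, by rw [zero_add]; exact h⟩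
            · exact ⟨q', h1, h2⟩
          set j := top q with hj
          have hlt : q' < q := by
            have := hB.p2_pos j
            conv_rhs => rw [hqe]
            exact lt_add_of_pos_right _ this
          have hC' := ih q' hlt
          have h1 : m + p2 i * q = (m + p2 i * q') + p2 (i + j) := by
            rw [hB.p2_add, hqe]; ring
          have h0 : 0 < m + p2 i * q' := lt_of_lt_of_le hm le_self_add
          have h2 : m + p2 i * q' < p2 (i + j) := by
            rw [hB.p2_add]
            calc m + p2 i * q' < p2 i + p2 i * q' := by gcongr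
              _ = p2 i * (q' + 1) := by ring
              _ ≤ p2 i * p2 j := by
                have := succ_le' hq'
                gcongr
          have h3 : la (m + p2 i * q') = la m := hB.la_add m i q' hm hmi
          have h4 : top m ≤ top (m + p2 i * q') := hB.top_mono _ _ hm le_self_add
          obtain ⟨d, hd⟩ := exists_sub (htop.trans h4)
          obtain ⟨b', hb'⟩ := exists_sub (hB.la_lt _ _ h0 h2).le
          have h5 : top (m + p2 i * q') = la (m + p2 i * q') + (M + d) := by
            rw [hd, h3]; ring
          have h6 : ¬ Ev W (la (m + p2 i * q')) (M + d) b' := by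
            rintro ⟨z, hz, hWb, hnWa⟩
            rw [h3] at hz
            exact hnWa (hE.mono M (M + d) z le_self_add (hbd z (lt_of_lt_of_le hz hla) b' hWb))
          rw [h1, hS.add0 _ _ _ _ h0 h2 h5 hb' h6, hC']
        · rw [← hq0, mul_zero, add_zero]
  intro q
  exact key (q + 1) q (lt1 q)

end Pool.Agent.H645R2.R
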