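import Mathlib
import Pool.Agent.H645R2.R.RevL
import Pool.Agent.H645R2.R.Rec
import Pool.Agent.H645R2.R.BinEx
import Pool.Agent.H645R2.R.BinPF
import Pool.Agent.H645R2.R.BinLa
import Pool.Agent.H645R2.R.ColEx
import Pool.Agent.H645R2.R.Stab
import Pool.Agent.H645R2.R.Gap
import Pool.Agent.H645R2.R.Diff
import Pool.Agent.H645R2.R.Ne
import Pool.Agent.H645R2.R.BdL
import Pool.Agent.H645R2.R.Far
import Pool.Agent.H645R2.R.Settled

namespace Pool.Agent.H645R2.R

universe u

/-- homogeneous sets for all colourings with three colours give `Σ⁰₁` comprehension -/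
theorem rev : S_rev.{u} :=
  rev_of bin binp binf (colex recur) (far (ne (gap stab) diff) bd)
    (settled (far (ne (gap stab) diff) bd) (gap stab) bd)

end Pool.Agent.H645R2.R
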